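import Pool.Agent.MP_f8c24f_lc.Defs

/-!
# The code of an instance determines the instance
-/

namespace Pool.Agent.MP_f8c24f_lc

/-- A code is self-delimiting if a code word can be recovered from any extension of it. -/
def SelfDelim {α : Type} (c : α → List Bool) : Prop :=
  ∀ a b u v, c a ++ u = c b ++ v → a = b ∧ u = v

theorem selfDelim_nat : SelfDelim codeNat := by
  intro a
  induction a with
  | zero =>
    intro b u v h
    cases b with
    | zero => simpa [codeNat] using h
    | succ b => simp [codeNat] at h
  | succ a ih =>
    intro b u v h
    cases b with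
    | zero => simp [codeNat] at h
    | succ b =>
      simp only [codeNat, List.cons_append, List.cons.injEq, true_and] at h
      obtain ⟨rfl, rfl⟩ := ih b u v h
      exact ⟨rfl, rfl⟩

theorem selfDelim_pair {α β : Type} {c : α → List Bool} {d : β → List Bool} (hc : SelfDelim c)
    (hd : SelfDelim d) : SelfDelim fun p : α × β => codePair (c p.1) (d p.2) := by
  rintro ⟨a, b⟩ ⟨a', b'⟩ u v h
  simp only [codePair, List.cons_append, List.cons.injEq, true_and, List.append_assoc] at h
  obtain ⟨rfl, h'⟩ := hc _ _ _ _ h
  obtain ⟨rfl, rfl⟩ := hd _ _ _ _ h'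
  exact ⟨rfl, rfl⟩

theorem selfDelim_list {α : Type} {c : α → List Bool} (hc : SelfDelim c) :
    SelfDelim (codeList c) := by
  intro a
  induction a with
  | nil =>
    intro b u v h
    cases b with
    | nil => simpa [codeList] using h
    | cons b l => simp [codeList] at h
  | cons a l ih =>
    intro b u v h
    cases b with
    | nil => simp [codeList] at h
    | cons b l' =>
      simp only [codeList, List.cons_append, List.cons.injEq, true_and, List.append_assoc] at h
      obtain ⟨rfl, h'⟩ := hc _ _ _ _ h
      obtain ⟨rfl, rfl⟩ := ih _ _ _ h'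
      exact ⟨rfl, rfl⟩

theorem selfDelim_int : SelfDelim codeInt := by
  intro a b u v h
  simp only [codeInt, codePair, List.cons_append, List.cons.injEq, true_and,
    List.append_assoc] at h
  split_ifs at h with h1 h2 h2
  · simp only [List.cons_append, List.cons.injEq, true_and, List.nil_append] at h
    obtain ⟨h3, rfl⟩ := selfDelim_nat _ _ _ _ h
    exact ⟨by omega, rfl⟩
  · simp at h
  · simp at h
  · simp only [List.cons_append, List.cons.injEq, true_and, List.nil_append] at h
    obtain ⟨h3, rfl⟩ := selfDelim_nat _ _ _ _ h
    exact ⟨by omega, rfl⟩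

/-- Different instances have different codes. -/
theorem code_injective : Function.Injective Instance.code := by
  intro I J h
  have h1 := selfDelim_list (selfDelim_pair selfDelim_int selfDelim_int)
  have h2 := selfDelim_list (selfDelim_pair selfDelim_nat selfDelim_nat)
  have key := selfDelim_pair h1 (selfDelim_pair h2 (selfDelim_pair h2 h2))
    (I.pos, (I.arcs, (I.terms, I.conf))) (J.pos, (J.arcs, (J.terms, J.conf))) [] []
    (by rw [List.append_nil, List.append_nil]; exact h)
  obtain ⟨h3, -⟩ := key
  cases I
  cases J
  simp only [Prod.mk.injEq] at h3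
  simp only [Instance.mk.injEq]
  exact h3

end Pool.Agent.MP_f8c24f_lc
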