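import Pool.Agent.MP_f8c24f_lc.Constr

/-!
# The reduction: correctness
-/

open Pool.Agent.H66

namespace Pool.Agent.MP_f8c24f_lc

/-! ### Lists of fixed-length blocks -/

theorem flatMap_block_length {α : Type} (g : ℕ → List α) (c : ℕ) (hg : ∀ i, (g i).length = c)
    (m : ℕ) : ((List.range m).flatMap g).length = c * m := by
  induction m with
  | zero => simp
  | succ m ih =>
    rw [List.range_succ, List.flatMap_append, List.length_append, ih]
    simp only [List.flatMap_cons, List.flatMap_nil, List.append_nil, hg]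
    ring

theorem flatMap_block_get {α : Type} (g : ℕ → List α) (c : ℕ) (hg : ∀ i, (g i).length = c)
    (m j t : ℕ) (hj : j < m) (ht : t < c) :
    ((List.range m).flatMap g)[c * j + t]? = (g j)[t]? := by
  induction m with
  | zero => omega
  | succ m ih =>
    rw [List.range_succ, List.flatMap_append]
    simp only [List.flatMap_cons, List.flatMap_nil, List.append_nil]
    rcases Nat.lt_or_ge j m with h | h
    · rw [List.getElem?_append_left, ih h]
      rw [flatMap_block_length g c hg]
      have : c * (j + 1) ≤ c * m := Nat.mul_le_mul_left _ h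
      rw [Nat.mul_succ] at this
      omega
    · have hjm : j = m := by omega
      subst hjm
      rw [List.getElem?_append_right]
      · rw [flatMap_block_length g c hg]
        congr 1
        omega
      · rw [flatMap_block_length g c hg]
        omega

/-! ### Terminals -/

theorem termsL_length (k N m : ℕ) : (termsL k N m).length = 4 + N + 5 * m := by
  unfold termsL
  rw [List.length_append, List.length_append, List.length_map, List.length_range,
    flatMap_block_length _ 5 (fun _ => rfl)]
  rfl

theorem termsL_K (k N m : ℕ) (i : ℕ) (hi : i < 4) :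
    (termsL k N m)[i]? = [(0, 7), (6, 1), (2, 9), (8, 3)][i]? := by
  unfold termsL
  rw [List.append_assoc, List.getElem?_append_left (by simpa using hi)]

theorem termsL_Y (k N m : ℕ) (v : ℕ) (hv : v < N) :
    (termsL k N m)[4 + v]? = some (10 + 4 * k + (4 + v), 10 + 5 * k + (4 + v)) := by
  unfold termsL
  rw [List.getElem?_append_left (by simp; omega), List.getElem?_append_right (by simp)]
  have : 4 + v - [(0, 7), (6, 1), (2, 9), (8, 3)].length = v := by
    simp only [List.length_cons, List.length_nil]; omega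
  rw [this]
  simp [hv]

theorem termsL_C (k N m : ℕ) (j t : ℕ) (hj : j < m) (ht : t < 5) :
    (termsL k N m)[4 + N + 5 * j + t]? = (termsC k (4 + N + 5 * j))[t]? := by
  unfold termsL
  rw [List.getElem?_append_right (by simp; omega)]
  have : 4 + N + 5 * j + t - ([(0, 7), (6, 1), (2, 9), (8, 3)] ++
      (List.range N).map fun v => (10 + 4 * k + (4 + v), 10 + 5 * k + (4 + v))).length =
      5 * j + t := by
    simp only [List.length_cons, List.length_nil, List.length_append, List.length_map,
      List.length_range]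
    omega
  rw [this, flatMap_block_get _ 5 (fun _ => rfl) m j t hj ht]

/-! ### Arcs -/

theorem mem_arcsL {k : ℕ} {a : ℕ × ℕ} :
    a ∈ arcsL k ↔ a ∈ baseArcs ∨ ∃ i < k, a ∈ chainArcs k i := by
  unfold arcsL
  simp [List.mem_append, List.mem_flatMap]

theorem mem_chainArcs {k i : ℕ} {a : ℕ × ℕ} :
    a ∈ chainArcs k i ↔
      a = (10 + i, if i = 0 then 4 else 9 + i) ∨
      a = (if i = 0 then 5 else 9 + k + i, 10 + k + i) ∨
      a = (10 + 2 * k + i, if i = 0 then 6 else 9 + 2 * k + i) ∨
      a = (if i = 0 then 7 else 9 + 3 * k + i, 10 + 3 * k + i) ∨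
      a = (10 + 4 * k + i, if i = 0 then 8 else 9 + 4 * k + i) ∨
      a = (if i = 0 then 9 else 9 + 5 * k + i, 10 + 5 * k + i) := by
  simp [chainArcs]

theorem mem_baseArcs {a : ℕ × ℕ} :
    a ∈ baseArcs ↔ a = (4, 0) ∨ a = (4, 1) ∨ a = (4, 2) ∨ a = (4, 3) ∨ a = (0, 5) ∨ a = (1, 5) ∨
      a = (2, 5) ∨ a = (3, 5) ∨ a = (6, 0) ∨ a = (6, 1) ∨ a = (0, 7) ∨ a = (1, 7) ∨ a = (8, 2) ∨
      a = (8, 3) ∨ a = (2, 9) ∨ a = (3, 9) := by
  simp [baseArcs]

/-! ### Leaving a set of vertices -/

theorem exists_exit {R : ℕ → ℕ → Prop} {A : ℕ → Prop} : ∀ (P : List ℕ) (x y : ℕ),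
    P.IsChain R → P.head? = some x → A x → P.getLast? = some y → ¬ A y →
    ∃ u v, A u ∧ ¬ A v ∧ R u v ∧ v ∈ P
  | [], x, y, _, hx, _, _, _ => by simp at hx
  | [a], x, y, _, hx, hAx, hy, hAy => by
      simp only [List.head?_cons, Option.some.injEq] at hx
      simp only [List.getLast?_singleton, Option.some.injEq] at hy
      subst hx; subst hy
      exact absurd hAx hAy
  | a :: b :: P, x, y, hP, hx, hAx, hy, hAy => by
      simp only [List.head?_cons, Option.some.injEq] at hx
      subst hx
      rw [List.isChain_cons_cons] at hP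
      by_cases hb : A b
      · rw [List.getLast?_cons_cons] at hy
        obtain ⟨u, v, h1, h2, h3, h4⟩ := exists_exit (b :: P) b y hP.2 rfl hb hy hAy
        exact ⟨u, v, h1, h2, h3, List.mem_cons_of_mem _ h4⟩
      · exact ⟨a, b, hAx, hb, hP.1, by simp⟩

theorem exit_C {k : ℕ} {u v : ℕ} (h : (u, v) ∈ arcsL k) (hu : (10 ≤ u ∧ u < 10 + k) ∨ u = 4)
    (hv : ¬ ((10 ≤ v ∧ v < 10 + k) ∨ v = 4)) : v < 4 := by
  rw [mem_arcsL] at h
  rcases h with h | ⟨i, hi, h⟩
  · rw [mem_baseArcs] at h
    simp only [Prod.mk.injEq] at h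
    omega
  · rw [mem_chainArcs] at h
    simp only [Prod.mk.injEq] at h
    split_ifs at h <;> omega

theorem exit_W {k : ℕ} {u v : ℕ} (h : (u, v) ∈ arcsL k)
    (hu : (10 + 2 * k ≤ u ∧ u < 10 + 3 * k) ∨ u = 6)
    (hv : ¬ ((10 + 2 * k ≤ v ∧ v < 10 + 3 * k) ∨ v = 6)) : v = 0 ∨ v = 1 := by
  rw [mem_arcsL] at h
  rcases h with h | ⟨i, hi, h⟩
  · rw [mem_baseArcs] at h
    simp only [Prod.mk.injEq] at h
    omega
  · rw [mem_chainArcs] at h
    simp only [Prod.mk.injEq] at h
    split_ifs at h <;> omega

theorem exit_Y {k : ℕ} {u v : ℕ} (h : (u, v) ∈ arcsL k)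
    (hu : (10 + 4 * k ≤ u ∧ u < 10 + 5 * k) ∨ u = 8)
    (hv : ¬ ((10 + 4 * k ≤ v ∧ v < 10 + 5 * k) ∨ v = 8)) : v = 2 ∨ v = 3 := by
  rw [mem_arcsL] at h
  rcases h with h | ⟨i, hi, h⟩
  · rw [mem_baseArcs] at h
    simp only [Prod.mk.injEq] at h
    omega
  · rw [mem_chainArcs] at h
    simp only [Prod.mk.injEq] at h
    split_ifs at h <;> omega

/-! ### Paths of the three kinds -/

/-- The descending part of a source chain. -/
def up (a : ℕ) : ℕ → List ℕ
  | 0 => [10 + a]
  | i + 1 => (10 + a + (i + 1)) :: up a i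

/-- The ascending part of a sink chain. -/
def down (b : ℕ) : ℕ → List ℕ
  | 0 => [10 + b]
  | i + 1 => down b i ++ [10 + b + (i + 1)]

theorem mem_up {a i v : ℕ} : v ∈ up a i ↔ 10 + a ≤ v ∧ v ≤ 10 + a + i := by
  induction i with
  | zero => simp only [up, List.mem_singleton]; omega
  | succ i ih => simp only [up, List.mem_cons, ih]; omega

theorem mem_down {b i v : ℕ} : v ∈ down b i ↔ 10 + b ≤ v ∧ v ≤ 10 + b + i := by
  induction i with
  | zero => simp only [down, List.mem_singleton]; omega
  | succ i ih =>
    simp only [down, List.mem_append, ih, List.mem_singleton]; omega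

theorem nodup_up (a i : ℕ) : (up a i).Nodup := by
  induction i with
  | zero => simp [up]
  | succ i ih =>
    simp only [up, List.nodup_cons, mem_up]
    exact ⟨by omega, ih⟩

theorem nodup_down (b i : ℕ) : (down b i).Nodup := by
  induction i with
  | zero => simp [down]
  | succ i ih =>
    simp only [down]
    rw [List.nodup_append]
    refine ⟨ih, by simp, ?_⟩
    intro x hx y hy
    rw [mem_down] at hx
    simp only [List.mem_singleton] at hy
    omega

theorem up_head (a i : ℕ) : (up a i).head? = some (10 + a + i) := by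
  cases i <;> simp [up]

theorem up_last (a i : ℕ) : (up a i).getLast? = some (10 + a) := by
  induction i with
  | zero => simp [up]
  | succ i ih =>
    cases i with
    | zero => simp [up]
    | succ i =>
      simp only [up] at ih ⊢
      rw [List.getLast?_cons_cons]
      exact ih

theorem down_head (b i : ℕ) : (down b i).head? = some (10 + b) := by
  induction i with
  | zero => simp [down]
  | succ i ih =>
    simp only [down]
    rw [List.head?_append, ih]
    rfl

theorem down_last (b i : ℕ) : (down b i).getLast? = some (10 + b + i) := by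
  cases i with
  | zero => simp [down]
  | succ i => simp [down]

theorem chain_up {R : ℕ → ℕ → Prop} {a i : ℕ} (h : ∀ l < i, R (10 + a + (l + 1)) (10 + a + l)) :
    (up a i).IsChain R := by
  induction i with
  | zero => simp [up]
  | succ i ih =>
    have ih' := ih fun l hl => h l (by omega)
    cases i with
    | zero =>
      simp only [up, List.isChain_cons_cons, List.isChain_singleton, and_true]
      exact h 0 (by omega)
    | succ i =>
      simp only [up] at ih' ⊢
      rw [List.isChain_cons_cons]
      exact ⟨h (i + 1) (by omega), ih'⟩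

theorem chain_down {R : ℕ → ℕ → Prop} {b i : ℕ}
    (h : ∀ l < i, R (10 + b + l) (10 + b + (l + 1))) : (down b i).IsChain R := by
  induction i with
  | zero => simp [down]
  | succ i ih =>
    simp only [down]
    rw [List.isChain_append]
    refine ⟨ih fun l hl => h l (by omega), by simp, ?_⟩
    intro x hx y hy
    rw [down_last] at hx
    simp only [Option.mem_def, Option.some.injEq] at hx
    simp only [List.head?_cons, Option.mem_def, Option.some.injEq] at hy
    subst hx; subst hy
    exact h i (by omega)

/-- The path through two chains and the vertices `r, c, s`. -/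
def pth (a r c s b i : ℕ) : List ℕ := up a i ++ ([r, c, s] ++ down b i)

theorem mem_pth {a r c s b i v : ℕ} : v ∈ pth a r c s b i ↔
    (10 + a ≤ v ∧ v ≤ 10 + a + i) ∨ v = r ∨ v = c ∨ v = s ∨ (10 + b ≤ v ∧ v ≤ 10 + b + i) := by
  simp [pth, mem_up, mem_down]

theorem isPath_pth {I : Instance} {a r c s b i : ℕ}
    (h1 : ∀ l < i, (10 + a + (l + 1), 10 + a + l) ∈ I.arcs) (h2 : (10 + a, r) ∈ I.arcs)
    (h3 : (r, c) ∈ I.arcs) (h4 : (c, s) ∈ I.arcs) (h5 : (s, 10 + b) ∈ I.arcs)
    (h6 : ∀ l < i, (10 + b + l, 10 + b + (l + 1)) ∈ I.arcs)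
    (hr : r < 10) (hc : c < 10) (hs : s < 10) (hrc : r ≠ c) (hrs : r ≠ s) (hcs : c ≠ s)
    (hab : a + i < b) : I.IsPath (pth a r c s b i) (10 + a + i) (10 + b + i) := by
  refine ⟨?_, ?_, ?_, ?_⟩
  · unfold pth
    rw [List.nodup_append]
    refine ⟨nodup_up _ _, ?_, ?_⟩
    · rw [List.nodup_append]
      refine ⟨by simp [hrc, hrs, hcs], nodup_down _ _, ?_⟩
      intro x hx y hy
      rw [mem_down] at hy
      simp only [List.mem_cons, List.not_mem_nil, or_false] at hx
      omega
    · intro x hx y hy
      rw [mem_up] at hx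
      simp only [List.mem_append, List.mem_cons, List.not_mem_nil, or_false, mem_down] at hy
      omega
  · unfold pth
    rw [List.head?_append, up_head]
    rfl
  · unfold pth
    rw [List.getLast?_append, List.getLast?_append, down_last]
    rfl
  · unfold pth
    rw [List.isChain_append]
    refine ⟨chain_up h1, ?_, ?_⟩
    · rw [List.isChain_append]
      refine ⟨by simp [h3, h4], chain_down h6, ?_⟩
      intro x hx y hy
      rw [down_head] at hy
      simp only [List.getLast?_cons_cons, List.getLast?_singleton, Option.mem_def,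
        Option.some.injEq] at hx hy
      subst hx; subst hy
      exact h5
    · intro x hx y hy
      rw [up_last] at hx
      simp only [List.cons_append, List.head?_cons, Option.mem_def, Option.some.injEq] at hx hy
      subst hx; subst hy
      exact h2

theorem arc_of_base {k : ℕ} {a : ℕ × ℕ} (h : a ∈ baseArcs) : a ∈ arcsL k :=
  mem_arcsL.2 (Or.inl h)

theorem arc_of_chain {k i : ℕ} {a : ℕ × ℕ} (hi : i < k) (h : a ∈ chainArcs k i) : a ∈ arcsL k :=
  mem_arcsL.2 (Or.inr ⟨i, hi, h⟩)

theorem base_C {c : ℕ} (hc : c < 4) : (4, c) ∈ baseArcs ∧ (c, 5) ∈ baseArcs := by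
  interval_cases c <;> decide

theorem base_W {c : ℕ} (hc : c = 0 ∨ c = 1) : (6, c) ∈ baseArcs ∧ (c, 7) ∈ baseArcs := by
  rcases hc with rfl | rfl <;> decide

theorem base_Y {c : ℕ} (hc : c = 2 ∨ c = 3) : (8, c) ∈ baseArcs ∧ (c, 9) ∈ baseArcs := by
  rcases hc with rfl | rfl <;> decide

theorem isPath_C {φ : List Cl} {c i : ℕ} (hc : c < 4) (hi : i < kk φ) :
    (mkInst φ).IsPath (pth 0 4 c 5 (kk φ) i) (10 + i) (10 + kk φ + i) := by
  have key := isPath_pth (I := mkInst φ) (a := 0) (r := 4) (c := c) (s := 5) (b := kk φ) (i := i)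
    (fun l hl => arc_of_chain (i := l + 1) (by omega) (mem_chainArcs.2 (by
      left; simp; omega)))
    (arc_of_chain (i := 0) (by omega) (mem_chainArcs.2 (by left; simp)))
    (arc_of_base (base_C hc).1) (arc_of_base (base_C hc).2)
    (arc_of_chain (i := 0) (by omega) (mem_chainArcs.2 (by right; left; simp)))
    (fun l hl => arc_of_chain (i := l + 1) (by omega) (mem_chainArcs.2 (by
      right; left; simp; omega)))
    (by omega) (by omega) (by omega) (by omega) (by omega) (by omega) (by omega)
  simpa using key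

theorem isPath_W {φ : List Cl} {c i : ℕ} (hc : c = 0 ∨ c = 1) (hi : i < kk φ) :
    (mkInst φ).IsPath (pth (2 * kk φ) 6 c 7 (3 * kk φ) i) (10 + 2 * kk φ + i)
      (10 + 3 * kk φ + i) := by
  exact isPath_pth (I := mkInst φ) (a := 2 * kk φ) (r := 6) (c := c) (s := 7) (b := 3 * kk φ)
    (i := i)
    (fun l hl => arc_of_chain (i := l + 1) (by omega) (mem_chainArcs.2 (by
      right; right; left; simp; omega)))
    (arc_of_chain (i := 0) (by omega) (mem_chainArcs.2 (by right; right; left; simp)))
    (arc_of_base (base_W hc).1) (arc_of_base (base_W hc).2)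
    (arc_of_chain (i := 0) (by omega) (mem_chainArcs.2 (by right; right; right; left; simp)))
    (fun l hl => arc_of_chain (i := l + 1) (by omega) (mem_chainArcs.2 (by
      right; right; right; left; simp; omega)))
    (by omega) (by omega) (by omega) (by omega) (by omega) (by omega) (by omega)

theorem isPath_Y {φ : List Cl} {c i : ℕ} (hc : c = 2 ∨ c = 3) (hi : i < kk φ) :
    (mkInst φ).IsPath (pth (4 * kk φ) 8 c 9 (5 * kk φ) i) (10 + 4 * kk φ + i)
      (10 + 5 * kk φ + i) := by
  exact isPath_pth (I := mkInst φ) (a := 4 * kk φ) (r := 8) (c := c) (s := 9) (b := 5 * kk φ)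
    (i := i)
    (fun l hl => arc_of_chain (i := l + 1) (by omega) (mem_chainArcs.2 (by
      right; right; right; right; left; simp; omega)))
    (arc_of_chain (i := 0) (by omega) (mem_chainArcs.2 (by right; right; right; right; left; simp)))
    (arc_of_base (base_Y hc).1) (arc_of_base (base_Y hc).2)
    (arc_of_chain (i := 0) (by omega) (mem_chainArcs.2 (by
      right; right; right; right; right; simp)))
    (fun l hl => arc_of_chain (i := l + 1) (by omega) (mem_chainArcs.2 (by
      right; right; right; right; right; simp; omega)))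
    (by omega) (by omega) (by omega) (by omega) (by omega) (by omega) (by omega)

end Pool.Agent.MP_f8c24f_lc
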