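import Mathlib

/-!
# Partially disjoint paths in plane digraphs: definitions

Plane digraphs are given by straight-line drawings with integer coordinates.
-/

namespace Pool.Agent.MP_f8c24f_lc

/-- An instance of the partially disjoint paths problem. The vertices of the digraph are
`0, …, pos.length - 1`, vertex `v` being placed at the integer point `pos[v]` of the plane; `arcs`
lists the arcs, an arc being drawn as the straight segment between its ends; the `i`-th entry of
`terms` is the pair of terminals `(rᵢ, sᵢ)`; `conf` lists the pairs of indices in `F`. -/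
structure Instance where
  /-- positions of the vertices -/
  pos : List (ℤ × ℤ)
  /-- arcs -/
  arcs : List (ℕ × ℕ)
  /-- pairs of terminals -/
  terms : List (ℕ × ℕ)
  /-- the pairs of indices in `F` -/
  conf : List (ℕ × ℕ)

namespace Instance

/-- The point of the plane at which vertex `v` is placed. -/
def pt (I : Instance) (v : ℕ) : ℝ × ℝ :=
  (((I.pos.getD v (0, 0)).1 : ℝ), ((I.pos.getD v (0, 0)).2 : ℝ))

/-- The segment by which an arc is drawn. -/
def seg (I : Instance) (a : ℕ × ℕ) : Set (ℝ × ℝ) := segment ℝ (I.pt a.1) (I.pt a.2)

/-- The data describe a digraph embedded in the plane: distinct vertices are placed at distinct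
points, the ends of an arc are two different vertices, two different arcs meet only at common
ends, and an arc contains no vertex except its ends. -/
def IsPlane (I : Instance) : Prop :=
  I.pos.Nodup ∧
  (∀ a ∈ I.arcs, a.1 < I.pos.length ∧ a.2 < I.pos.length ∧ a.1 ≠ a.2) ∧
  (∀ a ∈ I.arcs, ∀ b ∈ I.arcs, a ≠ b → ∀ z, z ∈ I.seg a → z ∈ I.seg b →
    ∃ v, (v = a.1 ∨ v = a.2) ∧ (v = b.1 ∨ v = b.2) ∧ z = I.pt v) ∧
  (∀ a ∈ I.arcs, ∀ v < I.pos.length, I.pt v ∈ I.seg a → v = a.1 ∨ v = a.2)

/-- The terminals are vertices, and `F` is a set of pairs of distinct indices. -/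
def IsProper (I : Instance) : Prop :=
  (∀ t ∈ I.terms, t.1 < I.pos.length ∧ t.2 < I.pos.length) ∧
  ∀ e ∈ I.conf, e.1 < I.terms.length ∧ e.2 < I.terms.length ∧ e.1 ≠ e.2

/-- All terminals `r₁, …, rₖ, s₁, …, sₖ` are pairwise different. -/
def TermsDistinct (I : Instance) : Prop :=
  (I.terms.map Prod.fst ++ I.terms.map Prod.snd).Nodup

/-- The union of all vertices and arcs of the drawing. -/
def drawing (I : Instance) : Set (ℝ × ℝ) :=
  {z | (∃ v < I.pos.length, z = I.pt v) ∨ ∃ a ∈ I.arcs, z ∈ I.seg a}

/-- The faces are the connected components of the complement of the drawing. -/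
def IsFace (I : Instance) (U : Set (ℝ × ℝ)) : Prop :=
  ∃ z ∈ I.drawingᶜ, U = connectedComponentIn I.drawingᶜ z

/-- All terminals lie on the boundaries of at most `p` faces. -/
def OnFaces (I : Instance) (p : ℕ) : Prop :=
  ∃ 𝓕 : Finset (Set (ℝ × ℝ)), 𝓕.card ≤ p ∧ (∀ U ∈ 𝓕, I.IsFace U) ∧
    ∀ t ∈ I.terms, (∃ U ∈ 𝓕, I.pt t.1 ∈ frontier U) ∧ ∃ U ∈ 𝓕, I.pt t.2 ∈ frontier U

/-- `P` is (the sequence of vertices of) a directed path from `r` to `s`. -/
def IsPath (I : Instance) (P : List ℕ) (r s : ℕ) : Prop :=
  P.Nodup ∧ P.head? = some r ∧ P.getLast? = some s ∧ P.IsChain fun u v => (u, v) ∈ I.arcs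

/-- There are directed paths `Pᵢ` from `rᵢ` to `sᵢ` such that `Pᵢ` and `Pⱼ` are vertex-disjoint
for all pairs in `F`. -/
def Solvable (I : Instance) : Prop :=
  ∃ P : ℕ → List ℕ, (∀ i t, I.terms[i]? = some t → I.IsPath (P i) t.1 t.2) ∧
    ∀ e ∈ I.conf, (P e.1).Disjoint (P e.2)

end Instance

/-! ## Codes of instances as bit strings -/

/-- The code of a natural number, in unary. -/
def codeNat : ℕ → List Bool
  | 0 => [false]
  | n + 1 => true :: false :: codeNat n

/-- The code of a pair whose components have the codes `x` and `y`. -/
def codePair (x y : List Bool) : List Bool := true :: (x ++ y)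

/-- The code of a list, given the codes of its entries. -/
def codeList {α : Type} (c : α → List Bool) : List α → List Bool
  | [] => [false]
  | a :: l => true :: (c a ++ codeList c l)

/-- The code of an integer: its sign and its absolute value. -/
def codeInt (z : ℤ) : List Bool :=
  codePair (if z < 0 then [true, false, false] else [false]) (codeNat z.natAbs)

/-- The code of an instance. All numbers are written in unary. -/
def Instance.code (I : Instance) : List Bool :=
  codePair (codeList (fun p => codePair (codeInt p.1) (codeInt p.2)) I.pos)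
    (codePair (codeList (fun p => codePair (codeNat p.1) (codeNat p.2)) I.arcs)
      (codePair (codeList (fun p => codePair (codeNat p.1) (codeNat p.2)) I.terms)
        (codeList (fun p => codePair (codeNat p.1) (codeNat p.2)) I.conf)))

/-! ## NP-hardness -/

/-- The code of an input `x` together with a certificate `y`: the bits of `x`, a separator, the
bits of `y`. -/
def pairCode (p : List Bool × List Bool) : List (Option Bool) :=
  p.1.map some ++ none :: p.2.map some

/-- The class NP: languages over the alphabet of bits that have a verifier which runs in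
polynomial time on a Turing machine (Mathlib's `TM2`), with certificates of polynomially bounded
length. -/
def InNP (L : Set (List Bool)) : Prop :=
  ∃ (q : Polynomial ℕ) (V : List Bool × List Bool → Bool),
    Nonempty (Turing.TM2ComputableInPolyTime pairCode Computability.encodeBool V) ∧
    ∀ x, x ∈ L ↔ ∃ y : List Bool, y.length ≤ q.eval x.length ∧ V (x, y) = true

/-- The partially disjoint paths problem in plane digraphs is NP-hard on the instances whose
terminals are pairwise different and lie on the boundaries of at most `p` faces: every language in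
NP has a polynomial-time many-one reduction to it, all of whose values are such instances. -/
def NPHardOnFaces (p : ℕ) : Prop :=
  ∀ L : Set (List Bool), InNP L → ∃ f : List Bool → Instance,
    Nonempty (Turing.TM2ComputableInPolyTime (fun x : List Bool => x) Instance.code f) ∧
    ∀ x, (f x).IsPlane ∧ (f x).IsProper ∧ (f x).TermsDistinct ∧ (f x).OnFaces p ∧
      (x ∈ L ↔ (f x).Solvable)

end Pool.Agent.MP_f8c24f_lc
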