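import Pool.Agent.Lib.helper66.CookLevin
import Pool.Agent.MP_f8c24f_lc.Defs

/-!
# The reduction: construction and polynomial time
-/

open Pool.Agent.H66

namespace Pool.Agent.MP_f8c24f_lc

/-! ### Integers -/

instance : Enc ℤ := ⟨fun z => .node (Enc.toT (decide (z < 0))) (Enc.toT z.natAbs)⟩

theorem enc_int (z : ℤ) : enc z = true :: (enc (decide (z < 0)) ++ enc z.natAbs) := rfl

theorem polyTime_ofNat : PolyTime fun n : ℕ => (n : ℤ) := by
  have h : PolyTime fun n : ℕ => (false, n) := (PolyTime.const false).pair PolyTime.id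
  have h2 : PolyTime fun p : Bool × ℕ => (if p.1 then (0 : ℤ) else (p.2 : ℤ)) := by
    refine (PolyTime.fst).ite (PolyTime.const 0) ?_
    have h3 : PolyTime fun p : Bool × ℕ => (false, p.2) := (PolyTime.const false).pair PolyTime.snd
    obtain ⟨P, N, g, hg, hU, h⟩ := h3
    refine ⟨P, N, g, hg, hU, fun b S a => ?_⟩
    obtain ⟨t, ht, hr⟩ := h b S a
    refine ⟨t, ht, ?_⟩
    have : enc ((a.2 : ℕ) : ℤ) = enc (false, a.2) := by
      rw [enc_int, enc_pair]
      have h4 : decide (((a.2 : ℕ) : ℤ) < 0) = false := decide_eq_false (by omega)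
      rw [h4, Int.natAbs_natCast]
    rw [this]
    exact hr
  exact (h2.comp h).of_eq fun n => by simp

theorem polyTime_negNat : PolyTime fun n : ℕ => (-(n : ℤ)) := by
  have h3 : PolyTime fun n : ℕ => (!(n == 0), n) :=
    (PolyTime.not PolyTime.isZero).pair PolyTime.id
  obtain ⟨P, N, g, hg, hU, h⟩ := h3
  refine ⟨P, N, g, hg, hU, fun b S a => ?_⟩
  obtain ⟨t, ht, hr⟩ := h b S a
  refine ⟨t, ht, ?_⟩
  have : enc (-(a : ℤ)) = enc (!(a == 0), a) := by
    rw [enc_int, enc_pair]
    have h4 : decide (-(a : ℤ) < 0) = !(a == 0) := by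
      cases a with
      | zero => simp
      | succ n =>
        have : decide (-((n + 1 : ℕ) : ℤ) < 0) = true := decide_eq_true (by omega)
        rw [this]
        rfl
    rw [h4, Int.natAbs_neg, Int.natAbs_natCast]
  rw [this]
  exact hr

/-! ### Syntax-directed rules -/

section rules
variable {α β γ : Type} [Enc α] [Enc β] [Enc γ]

theorem ptFst {f : γ → α × β} (h : PolyTime f) : PolyTime fun c => (f c).1 := PolyTime.fst.comp h
theorem ptSnd {f : γ → α × β} (h : PolyTime f) : PolyTime fun c => (f c).2 := PolyTime.snd.comp h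
theorem ptCons {a : γ → α} {l : γ → List α} (ha : PolyTime a) (hl : PolyTime l) :
    PolyTime fun c => a c :: l c := PolyTime.cons.comp (ha.pair hl)
theorem ptCast {n : γ → ℕ} (h : PolyTime n) : PolyTime fun c => ((n c : ℕ) : ℤ) :=
  polyTime_ofNat.comp h
theorem ptNeg {n : γ → ℕ} (h : PolyTime n) : PolyTime fun c => (-((n c : ℕ) : ℤ)) :=
  polyTime_negNat.comp h
theorem ptIte {p : γ → Prop} [DecidablePred p] {f g : γ → α} (hp : PolyTime fun c => decide (p c))
    (hf : PolyTime f) (hg : PolyTime g) : PolyTime fun c => if p c then f c else g c :=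
  (hp.ite hf hg).of_eq fun c => by by_cases h : p c <;> simp [h]

end rules

/-! ### The construction -/

/-- A bound for the variables of a formula. -/
def nV (φ : List Cl) : ℕ :=
  (φ.flatMap fun c => List.range (c.1.2 + c.2.1.2 + c.2.2.2 + 1)).length

/-- The number of paths. -/
def kk (φ : List Cl) : ℕ := 4 + nV φ + 5 * φ.length

/-- Positions of the vertices. -/
def posF (k v : ℕ) : ℤ × ℤ :=
  if v = 0 then (-((3 : ℕ) : ℤ), ((0 : ℕ) : ℤ))
  else if v = 1 then (-((1 : ℕ) : ℤ), ((0 : ℕ) : ℤ))
  else if v = 2 then (((1 : ℕ) : ℤ), ((0 : ℕ) : ℤ))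
  else if v = 3 then (((3 : ℕ) : ℤ), ((0 : ℕ) : ℤ))
  else if v = 4 then (((0 : ℕ) : ℤ), ((4 * (k + 1) : ℕ) : ℤ))
  else if v = 5 then (((0 : ℕ) : ℤ), -((4 * (k + 1) : ℕ) : ℤ))
  else if v = 6 then (-((2 : ℕ) : ℤ), ((k + 1 : ℕ) : ℤ))
  else if v = 7 then (-((2 : ℕ) : ℤ), -((k + 1 : ℕ) : ℤ))
  else if v = 8 then (((2 : ℕ) : ℤ), ((k + 1 : ℕ) : ℤ))
  else if v = 9 then (((2 : ℕ) : ℤ), -((k + 1 : ℕ) : ℤ))
  else if v < 10 + k then (((0 : ℕ) : ℤ), ((4 * (k + 1) + 1 + (v - 10) : ℕ) : ℤ))
  else if v < 10 + 2 * k then (((0 : ℕ) : ℤ), -((4 * (k + 1) + 1 + (v - (10 + k)) : ℕ) : ℤ))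
  else if v < 10 + 3 * k then (-((2 : ℕ) : ℤ), ((k - (v - (10 + 2 * k)) : ℕ) : ℤ))
  else if v < 10 + 4 * k then (-((2 : ℕ) : ℤ), -((k - (v - (10 + 3 * k)) : ℕ) : ℤ))
  else if v < 10 + 5 * k then (((2 : ℕ) : ℤ), ((k - (v - (10 + 4 * k)) : ℕ) : ℤ))
  else (((2 : ℕ) : ℤ), -((k - (v - (10 + 5 * k)) : ℕ) : ℤ))

/-- The list of positions. -/
def posL (k : ℕ) : List (ℤ × ℤ) := (List.range (10 + 6 * k)).map (posF k)

/-- The arcs of the fixed part of the digraph. -/
def baseArcs : List (ℕ × ℕ) :=
  [(4, 0), (4, 1), (4, 2), (4, 3), (0, 5), (1, 5), (2, 5), (3, 5),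
   (6, 0), (6, 1), (0, 7), (1, 7), (8, 2), (8, 3), (2, 9), (3, 9)]

/-- The `i`-th arcs of the chains. -/
def chainArcs (k i : ℕ) : List (ℕ × ℕ) :=
  [(10 + i, if i = 0 then 4 else 9 + i),
   (if i = 0 then 5 else 9 + k + i, 10 + k + i),
   (10 + 2 * k + i, if i = 0 then 6 else 9 + 2 * k + i),
   (if i = 0 then 7 else 9 + 3 * k + i, 10 + 3 * k + i),
   (10 + 4 * k + i, if i = 0 then 8 else 9 + 4 * k + i),
   (if i = 0 then 9 else 9 + 5 * k + i, 10 + 5 * k + i)]

/-- The list of arcs. -/
def arcsL (k : ℕ) : List (ℕ × ℕ) := baseArcs ++ (List.range k).flatMap (chainArcs k)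

/-- The terminals of the paths of a clause. -/
def termsC (k B : ℕ) : List (ℕ × ℕ) :=
  [(10 + 2 * k + B, 10 + 3 * k + B), (10 + 2 * k + (B + 1), 10 + 3 * k + (B + 1)),
   (10 + (B + 2), 10 + k + (B + 2)), (10 + (B + 3), 10 + k + (B + 3)),
   (10 + (B + 4), 10 + k + (B + 4))]

/-- The list of terminals. -/
def termsL (k N m : ℕ) : List (ℕ × ℕ) :=
  [(0, 7), (6, 1), (2, 9), (8, 3)] ++
  ((List.range N).map fun v => (10 + 4 * k + (4 + v), 10 + 5 * k + (4 + v))) ++
  (List.range m).flatMap fun j => termsC k (4 + N + 5 * j)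

/-- The conflicts of one path of a clause. -/
def grp (h a a' : ℕ) (l : Lit) : List (ℕ × ℕ) :=
  [(h, a), (h, a'), (h, 4 + l.2), (h, if l.1 then 2 else 3)]

/-- The conflicts of a clause. -/
def confC (B : ℕ) (c : Cl) : List (ℕ × ℕ) :=
  grp (B + 2) B (B + 1) c.2.2 ++ grp (B + 3) B 1 c.1 ++ grp (B + 4) (B + 1) 0 c.2.1

/-- The list of conflicts. -/
def confL (N : ℕ) (φ : List Cl) : List (ℕ × ℕ) :=
  (List.range φ.length).flatMap fun j => confC (4 + N + 5 * j) (φ.getD j default)

/-- The instance of a formula. -/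
def mkInst (φ : List Cl) : Instance where
  pos := posL (kk φ)
  arcs := arcsL (kk φ)
  terms := termsL (kk φ) (nV φ) φ.length
  conf := confL (nV φ) φ

/-! ### Polynomial time -/

theorem pt_posF {γ : Type} [Enc γ] {k v : γ → ℕ} (hk : PolyTime k) (hv : PolyTime v) :
    PolyTime fun c => posF (k c) (v c) := by
  unfold posF
  repeat first
    | with_reducible exact PolyTime.const _
    | with_reducible assumption
    | with_reducible apply ptIte
    | with_reducible apply PolyTime.eqb
    | with_reducible apply PolyTime.ltb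
    | with_reducible apply PolyTime.pair
    | with_reducible apply ptCast
    | with_reducible apply ptNeg
    | with_reducible apply PolyTime.add
    | with_reducible apply PolyTime.mul
    | with_reducible apply PolyTime.sub

theorem pt_posL {γ : Type} [Enc γ] {k : γ → ℕ} (hk : PolyTime k) :
    PolyTime fun c => posL (k c) := by
  unfold posL
  refine PolyTime.map (f := fun c v => posF (k c) v) (PolyTime.range ?_) ?_
  · repeat first
      | with_reducible exact PolyTime.const _
      | with_reducible assumption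
      | with_reducible apply PolyTime.add
      | with_reducible apply PolyTime.mul
  · exact pt_posF (hk.comp PolyTime.fst) PolyTime.snd

theorem pt_chainArcs {γ : Type} [Enc γ] {k i : γ → ℕ} (hk : PolyTime k) (hi : PolyTime i) :
    PolyTime fun c => chainArcs (k c) (i c) := by
  unfold chainArcs
  repeat first
    | with_reducible exact PolyTime.const _
    | with_reducible assumption
    | with_reducible apply ptCons
    | with_reducible apply PolyTime.pair
    | with_reducible apply ptIte
    | with_reducible apply PolyTime.eqb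
    | with_reducible apply PolyTime.add
    | with_reducible apply PolyTime.mul

theorem pt_arcsL {γ : Type} [Enc γ] {k : γ → ℕ} (hk : PolyTime k) :
    PolyTime fun c => arcsL (k c) := by
  unfold arcsL
  refine PolyTime.append (PolyTime.const _) (PolyTime.flatMap
    (f := fun c i => chainArcs (k c) i) (PolyTime.range hk) ?_)
  exact pt_chainArcs (hk.comp PolyTime.fst) PolyTime.snd

theorem pt_termsC {γ : Type} [Enc γ] {k B : γ → ℕ} (hk : PolyTime k) (hB : PolyTime B) :
    PolyTime fun c => termsC (k c) (B c) := by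
  unfold termsC
  repeat first
    | with_reducible exact PolyTime.const _
    | with_reducible assumption
    | with_reducible apply ptCons
    | with_reducible apply PolyTime.pair
    | with_reducible apply PolyTime.add
    | with_reducible apply PolyTime.mul

theorem pt_termsL {γ : Type} [Enc γ] {k N m : γ → ℕ} (hk : PolyTime k) (hN : PolyTime N)
    (hm : PolyTime m) : PolyTime fun c => termsL (k c) (N c) (m c) := by
  unfold termsL
  refine PolyTime.append (PolyTime.append (PolyTime.const _) (PolyTime.map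
    (f := fun c v => (10 + 4 * (k c) + (4 + v), 10 + 5 * (k c) + (4 + v)))
    (PolyTime.range hN) ?_)) (PolyTime.flatMap
    (f := fun c j => termsC (k c) (4 + N c + 5 * j)) (PolyTime.range hm) ?_)
  · have hk' : PolyTime fun p : γ × ℕ => k p.1 := hk.comp PolyTime.fst
    have hs : PolyTime fun p : γ × ℕ => p.2 := PolyTime.snd
    repeat first
      | with_reducible exact PolyTime.const _
      | with_reducible assumption
      | with_reducible apply PolyTime.pair
      | with_reducible apply PolyTime.add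
      | with_reducible apply PolyTime.mul
  · have hk' : PolyTime fun p : γ × ℕ => k p.1 := hk.comp PolyTime.fst
    have hN' : PolyTime fun p : γ × ℕ => N p.1 := hN.comp PolyTime.fst
    have hs : PolyTime fun p : γ × ℕ => p.2 := PolyTime.snd
    refine pt_termsC hk' ?_
    repeat first
      | with_reducible exact PolyTime.const _
      | with_reducible assumption
      | with_reducible apply PolyTime.add
      | with_reducible apply PolyTime.mul

theorem pt_grp {γ : Type} [Enc γ] {h a a' : γ → ℕ} {l : γ → Lit} (hh : PolyTime h)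
    (ha : PolyTime a) (ha' : PolyTime a') (hl : PolyTime l) :
    PolyTime fun x => grp (h x) (a x) (a' x) (l x) := by
  unfold grp
  have ite' : PolyTime fun x => if (l x).1 then 2 else 3 :=
    (ptFst hl).ite (PolyTime.const 2) (PolyTime.const 3)
  have hv : PolyTime fun x => 4 + (l x).2 := PolyTime.add (PolyTime.const 4) (ptSnd hl)
  exact ptCons (hh.pair ha) (ptCons (hh.pair ha') (ptCons (hh.pair hv)
    (ptCons (hh.pair ite') (PolyTime.const []))))

theorem pt_confC {γ : Type} [Enc γ] {B : γ → ℕ} {c : γ → Cl} (hB : PolyTime B)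
    (hc : PolyTime c) : PolyTime fun x => confC (B x) (c x) := by
  unfold confC
  have hadd : ∀ n, PolyTime fun x => B x + n := fun n => PolyTime.add hB (PolyTime.const n)
  exact PolyTime.append (PolyTime.append
    (pt_grp (hadd 2) hB (hadd 1) (ptSnd (ptSnd hc)))
    (pt_grp (hadd 3) hB (PolyTime.const 1) (ptFst hc)))
    (pt_grp (hadd 4) (hadd 1) (PolyTime.const 0) (ptFst (ptSnd hc)))

theorem pt_nV : PolyTime nV := by
  unfold nV
  refine PolyTime.length (PolyTime.flatMap
    (f := fun _ (c : Cl) => List.range (c.1.2 + c.2.1.2 + c.2.2.2 + 1)) PolyTime.id ?_)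
  have hs : PolyTime fun p : List Cl × Cl => p.2 := PolyTime.snd
  refine PolyTime.range ?_
  repeat first
    | with_reducible exact PolyTime.const _
    | with_reducible assumption
    | with_reducible apply PolyTime.add
    | with_reducible apply ptFst
    | with_reducible apply ptSnd

theorem pt_len : PolyTime fun φ : List Cl => φ.length := PolyTime.length PolyTime.id

theorem pt_kk : PolyTime kk :=
  PolyTime.add (PolyTime.add (PolyTime.const 4) pt_nV) (PolyTime.mul (PolyTime.const 5) pt_len)

theorem pt_confL : PolyTime fun φ : List Cl => confL (nV φ) φ := by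
  unfold confL
  refine PolyTime.flatMap
    (f := fun (φ : List Cl) j => confC (4 + nV φ + 5 * j) (φ.getD j default))
    (PolyTime.range pt_len) ?_
  have hN' : PolyTime fun p : List Cl × ℕ => nV p.1 := pt_nV.comp PolyTime.fst
  have hs : PolyTime fun p : List Cl × ℕ => p.2 := PolyTime.snd
  refine pt_confC ?_ (PolyTime.getD hs PolyTime.fst _)
  repeat first
    | with_reducible exact PolyTime.const _
    | with_reducible assumption
    | with_reducible apply PolyTime.add
    | with_reducible apply PolyTime.mul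

/-- The components of the instance. -/
def comps (φ : List Cl) : List (ℤ × ℤ) × (List (ℕ × ℕ) × (List (ℕ × ℕ) × List (ℕ × ℕ))) :=
  (posL (kk φ), (arcsL (kk φ), (termsL (kk φ) (nV φ) φ.length, confL (nV φ) φ)))

theorem pt_comps : PolyTime comps :=
  (pt_posL pt_kk).pair ((pt_arcsL pt_kk).pair ((pt_termsL pt_kk pt_nV pt_len).pair pt_confL))

/-! ### Codes -/

theorem codeNat_eq (n : ℕ) : codeNat n = enc n := by
  induction n with
  | zero => rfl
  | succ n ih => rw [codeNat, enc_succ, ih]

theorem codeInt_eq (z : ℤ) : codeInt z = enc z := by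
  rw [enc_int, codeInt, codePair, codeNat_eq]
  by_cases h : z < 0 <;> simp [h]

theorem codeList_eq {α : Type} [Enc α] {c : α → List Bool} (hc : ∀ a, c a = enc a)
    (l : List α) : codeList c l = enc l := by
  induction l with
  | nil => rfl
  | cons a l ih => rw [codeList, enc_cons, hc, ih]

theorem code_mkInst (φ : List Cl) : (mkInst φ).code = enc (comps φ) := by
  have h1 : ∀ p : ℤ × ℤ, codePair (codeInt p.1) (codeInt p.2) = enc p := fun p => by
    rw [codeInt_eq, codeInt_eq, enc_prod, codePair]
  have h2 : ∀ p : ℕ × ℕ, codePair (codeNat p.1) (codeNat p.2) = enc p := fun p => by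
    rw [codeNat_eq, codeNat_eq, enc_prod, codePair]
  unfold Instance.code
  rw [codeList_eq h1, codeList_eq h2, codeList_eq h2, codeList_eq h2]
  rfl

open Turing in
theorem tm2_congr {α β β' αΓ βΓ : Type} {ea : α → List αΓ} {eb : β → List βΓ}
    {eb' : β' → List βΓ} {f : α → β} {f' : α → β'} (h : ∀ a, eb (f a) = eb' (f' a))
    (hf : Nonempty (TM2ComputableInPolyTime ea eb f)) :
    Nonempty (TM2ComputableInPolyTime ea eb' f') := by
  obtain ⟨c⟩ := hf
  refine ⟨⟨c.toTM2ComputableAux, c.time, fun a => ?_⟩⟩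
  have := c.outputsFun a
  rw [h] at this
  exact this

end Pool.Agent.MP_f8c24f_lc
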