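import Pool.Agent.MP_f8c24f_lc.Comb

/-!
# The reduction: correctness, continued
-/

open Pool.Agent.H66

namespace Pool.Agent.MP_f8c24f_lc

/-! ### Colours of paths -/

theorem colour_C {φ : List Cl} {P : List ℕ} {i : ℕ} (hi : i < kk φ)
    (h : (mkInst φ).IsPath P (10 + i) (10 + kk φ + i)) : ∃ c < 4, c ∈ P := by
  obtain ⟨-, h1, h2, h3⟩ := h
  obtain ⟨u, v, hu, hv, ha, hm⟩ := exists_exit
    (A := fun v => (10 ≤ v ∧ v < 10 + kk φ) ∨ v = 4) P _ _ h3 h1 (by omega) h2 (by omega)
  exact ⟨v, exit_C ha hu hv, hm⟩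

theorem colour_W {φ : List Cl} {P : List ℕ} {i : ℕ} (hi : i < kk φ)
    (h : (mkInst φ).IsPath P (10 + 2 * kk φ + i) (10 + 3 * kk φ + i)) : 0 ∈ P ∨ 1 ∈ P := by
  obtain ⟨-, h1, h2, h3⟩ := h
  obtain ⟨u, v, hu, hv, ha, hm⟩ := exists_exit
    (A := fun v => (10 + 2 * kk φ ≤ v ∧ v < 10 + 3 * kk φ) ∨ v = 6) P _ _ h3 h1 (by omega) h2
    (by omega)
  rcases exit_W ha hu hv with rfl | rfl
  · exact Or.inl hm
  · exact Or.inr hm

theorem colour_Y {φ : List Cl} {P : List ℕ} {i : ℕ} (hi : i < kk φ)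
    (h : (mkInst φ).IsPath P (10 + 4 * kk φ + i) (10 + 5 * kk φ + i)) : 2 ∈ P ∨ 3 ∈ P := by
  obtain ⟨-, h1, h2, h3⟩ := h
  obtain ⟨u, v, hu, hv, ha, hm⟩ := exists_exit
    (A := fun v => (10 + 4 * kk φ ≤ v ∧ v < 10 + 5 * kk φ) ∨ v = 8) P _ _ h3 h1 (by omega) h2
    (by omega)
  rcases exit_Y ha hu hv with rfl | rfl
  · exact Or.inl hm
  · exact Or.inr hm

theorem mem_of_head? {P : List ℕ} {x : ℕ} (h : P.head? = some x) : x ∈ P :=
  List.mem_of_head? h

theorem mem_of_getLast? {P : List ℕ} {x : ℕ} (h : P.getLast? = some x) : x ∈ P :=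
  List.mem_of_getLast? h

/-! ### Soundness -/

theorem grp_sound {P : ℕ → List ℕ} {h a a' : ℕ} {l : Lit}
    (hd : ∀ e ∈ grp h a a' l, (P e.1).Disjoint (P e.2)) (hc : ∃ c < 4, c ∈ P h)
    (h2 : 2 ∈ P 2) (h3 : 3 ∈ P 3) (hl : 2 ∈ P (4 + l.2) ∨ 3 ∈ P (4 + l.2)) :
    (0 ∉ P a ∧ 0 ∉ P a') ∨ (1 ∉ P a ∧ 1 ∉ P a') ∨
      LitSat (fun v => decide (2 ∈ P (4 + v))) l := by
  obtain ⟨c, hc4, hc⟩ := hc
  have e1 : c ∉ P a := fun h' => hd (h, a) (by simp [grp]) hc h'
  have e2 : c ∉ P a' := fun h' => hd (h, a') (by simp [grp]) hc h'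
  have e3 : c ∉ P (4 + l.2) := fun h' => hd (h, 4 + l.2) (by simp [grp]) hc h'
  have e4 : c ∉ P (if l.1 then 2 else 3) := fun h' =>
    hd (h, if l.1 then 2 else 3) (by simp [grp]) hc h'
  unfold LitSat
  interval_cases c
  · exact Or.inl ⟨e1, e2⟩
  · exact Or.inr (Or.inl ⟨e1, e2⟩)
  · right; right
    cases hl1 : l.1 with
    | true => rw [hl1] at e4; exact absurd h2 e4
    | false => simpa using e3
  · right; right
    cases hl1 : l.1 with
    | false => rw [hl1] at e4; exact absurd h3 (by simpa using e4)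
    | true => simpa using hl.resolve_right e3

theorem var_lt {φ : List Cl} {c : Cl} (hc : c ∈ φ) :
    c.1.2 < nV φ ∧ c.2.1.2 < nV φ ∧ c.2.2.2 < nV φ := by
  have : c.1.2 + c.2.1.2 + c.2.2.2 + 1 ≤ nV φ := by
    unfold nV
    induction φ with
    | nil => simp at hc
    | cons d φ ih =>
      simp only [List.flatMap_cons, List.length_append, List.length_range]
      rcases List.mem_cons.1 hc with rfl | h
      · omega
      · have := ih h
        omega
  omega

theorem sat_of_solvable {φ : List Cl} (h : (mkInst φ).Solvable) : Sat3 φ := by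
  obtain ⟨P, hP, hF⟩ := h
  have hP' : ∀ i t, (termsL (kk φ) (nV φ) φ.length)[i]? = some t →
      (mkInst φ).IsPath (P i) t.1 t.2 := hP
  have hF' : ∀ e ∈ confL (nV φ) φ, (P e.1).Disjoint (P e.2) := hF
  have k0 : 0 ∈ P 0 := mem_of_head? (hP' 0 (0, 7) (by rw [termsL_K _ _ _ _ (by omega)]; rfl)).2.1
  have k1 : 1 ∈ P 1 :=
    mem_of_getLast? (hP' 1 (6, 1) (by rw [termsL_K _ _ _ _ (by omega)]; rfl)).2.2.1
  have k2 : 2 ∈ P 2 := mem_of_head? (hP' 2 (2, 9) (by rw [termsL_K _ _ _ _ (by omega)]; rfl)).2.1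
  have k3 : 3 ∈ P 3 :=
    mem_of_getLast? (hP' 3 (8, 3) (by rw [termsL_K _ _ _ _ (by omega)]; rfl)).2.2.1
  have hY : ∀ v < nV φ, 2 ∈ P (4 + v) ∨ 3 ∈ P (4 + v) := fun v hv =>
    colour_Y (i := 4 + v) (by unfold kk; omega) (hP' _ _ (termsL_Y _ _ _ v hv))
  refine ⟨fun v => decide (2 ∈ P (4 + v)), fun c hc => ?_⟩
  obtain ⟨v1, v2, v3⟩ := var_lt hc
  obtain ⟨j, hj, hjc⟩ := List.mem_iff_getElem.1 hc
  have hget : φ.getD j default = c := by rw [← hjc]; simp [hj]
  set B := 4 + nV φ + 5 * j with hB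
  have hkk : B + 4 < kk φ := by unfold kk; omega
  have hconf : ∀ e ∈ confC B c, (P e.1).Disjoint (P e.2) := fun e he => hF' e (by
    unfold confL
    refine List.mem_flatMap.2 ⟨j, List.mem_range.2 hj, ?_⟩
    rw [hget]
    exact he)
  have ht : ∀ t < 5, (termsL (kk φ) (nV φ) φ.length)[B + t]? = (termsC (kk φ) B)[t]? :=
    fun t ht => termsL_C _ _ _ j t hj ht
  have x0 : 0 ∈ P B ∨ 1 ∈ P B := colour_W (i := B) (by omega) (hP' B _ (ht 0 (by omega)))
  have x1 : 0 ∈ P (B + 1) ∨ 1 ∈ P (B + 1) :=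
    colour_W (i := B + 1) (by omega) (hP' (B + 1) _ (ht 1 (by omega)))
  have c2 : ∃ c < 4, c ∈ P (B + 2) :=
    colour_C (i := B + 2) (by omega) (hP' (B + 2) _ (ht 2 (by omega)))
  have c3 : ∃ c < 4, c ∈ P (B + 3) :=
    colour_C (i := B + 3) (by omega) (hP' (B + 3) _ (ht 3 (by omega)))
  have c4 : ∃ c < 4, c ∈ P (B + 4) :=
    colour_C (i := B + 4) (by omega) (hP' (B + 4) _ (ht 4 (by omega)))
  have g2 := grp_sound (fun e he => hconf e (by
    unfold confC; exact List.mem_append_left _ (List.mem_append_left _ he))) c2 k2 k3 (hY _ v3)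
  have g3 := grp_sound (fun e he => hconf e (by
    unfold confC; exact List.mem_append_left _ (List.mem_append_right _ he))) c3 k2 k3 (hY _ v1)
  have g4 := grp_sound (fun e he => hconf e (by
    unfold confC; exact List.mem_append_right _ he)) c4 k2 k3 (hY _ v2)
  unfold ClSat
  tauto

/-! ### Completeness -/

/-- The colour of the first path of a clause. -/
def xcol (τ : ℕ → Bool) (c : Cl) : ℕ :=
  if τ c.1.2 = c.1.1 then 0 else 1

/-- The colour of the second path of a clause. -/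
def xcol' (τ : ℕ → Bool) (c : Cl) : ℕ :=
  if τ c.1.2 = c.1.1 then 0 else if τ c.2.1.2 = c.2.1.1 then 1 else 0

/-- The colour of the third path of a clause. -/
def ccol2 (τ : ℕ → Bool) (c : Cl) : ℕ :=
  if τ c.1.2 = c.1.1 then 1 else if τ c.2.1.2 = c.2.1.1 then 0
  else if c.2.2.1 then 3 else 2

/-- The colour of the fourth path of a clause. -/
def ccol3 (τ : ℕ → Bool) (c : Cl) : ℕ :=
  if τ c.1.2 = c.1.1 then (if c.1.1 then 3 else 2) else 0

/-- The colour of the fifth path of a clause. -/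
def ccol4 (τ : ℕ → Bool) (c : Cl) : ℕ :=
  if τ c.1.2 = c.1.1 then 1 else if τ c.2.1.2 = c.2.1.1 then (if c.2.1.1 then 3 else 2) else 1

/-- The paths of the solution given by a satisfying assignment. -/
def sol (φ : List Cl) (τ : ℕ → Bool) (i : ℕ) : List ℕ :=
  if i = 0 then [0, 7] else if i = 1 then [6, 1] else if i = 2 then [2, 9]
  else if i = 3 then [8, 3]
  else if i < 4 + nV φ then pth (4 * kk φ) 8 (if τ (i - 4) then 2 else 3) 9 (5 * kk φ) i
  else if (i - (4 + nV φ)) % 5 = 0 then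
    pth (2 * kk φ) 6 (xcol τ (φ.getD ((i - (4 + nV φ)) / 5) default)) 7 (3 * kk φ) i
  else if (i - (4 + nV φ)) % 5 = 1 then
    pth (2 * kk φ) 6 (xcol' τ (φ.getD ((i - (4 + nV φ)) / 5) default)) 7 (3 * kk φ) i
  else if (i - (4 + nV φ)) % 5 = 2 then
    pth 0 4 (ccol2 τ (φ.getD ((i - (4 + nV φ)) / 5) default)) 5 (kk φ) i
  else if (i - (4 + nV φ)) % 5 = 3 then
    pth 0 4 (ccol3 τ (φ.getD ((i - (4 + nV φ)) / 5) default)) 5 (kk φ) i
  else pth 0 4 (ccol4 τ (φ.getD ((i - (4 + nV φ)) / 5) default)) 5 (kk φ) i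

section solvals
variable (φ : List Cl) (τ : ℕ → Bool)

theorem sol_0 : sol φ τ 0 = [0, 7] := rfl
theorem sol_1 : sol φ τ 1 = [6, 1] := rfl
theorem sol_2 : sol φ τ 2 = [2, 9] := rfl
theorem sol_3 : sol φ τ 3 = [8, 3] := rfl

theorem sol_Y {v : ℕ} (hv : v < nV φ) :
    sol φ τ (4 + v) = pth (4 * kk φ) 8 (if τ v then 2 else 3) 9 (5 * kk φ) (4 + v) := by
  unfold sol
  rw [if_neg (by omega), if_neg (by omega), if_neg (by omega), if_neg (by omega),
    if_pos (by omega), Nat.add_sub_cancel_left]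

theorem sol_B (j t : ℕ) (ht : t < 5) : sol φ τ (4 + nV φ + 5 * j + t) =
    if t = 0 then
      pth (2 * kk φ) 6 (xcol τ (φ.getD j default)) 7 (3 * kk φ) (4 + nV φ + 5 * j + t)
    else if t = 1 then
      pth (2 * kk φ) 6 (xcol' τ (φ.getD j default)) 7 (3 * kk φ) (4 + nV φ + 5 * j + t)
    else if t = 2 then pth 0 4 (ccol2 τ (φ.getD j default)) 5 (kk φ) (4 + nV φ + 5 * j + t)
    else if t = 3 then pth 0 4 (ccol3 τ (φ.getD j default)) 5 (kk φ) (4 + nV φ + 5 * j + t)
    else pth 0 4 (ccol4 τ (φ.getD j default)) 5 (kk φ) (4 + nV φ + 5 * j + t) := by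
  have e1 : 4 + nV φ + 5 * j + t - (4 + nV φ) = 5 * j + t := by omega
  have e2 : (5 * j + t) % 5 = t := by omega
  have e3 : (5 * j + t) / 5 = j := by omega
  unfold sol
  rw [if_neg (by omega), if_neg (by omega), if_neg (by omega), if_neg (by omega),
    if_neg (by omega), e1, e2, e3]

end solvals

theorem xcol_or (τ : ℕ → Bool) (c : Cl) : xcol τ c = 0 ∨ xcol τ c = 1 := by
  unfold xcol; split_ifs <;> simp

theorem xcol'_or (τ : ℕ → Bool) (c : Cl) : xcol' τ c = 0 ∨ xcol' τ c = 1 := by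
  unfold xcol'; split_ifs <;> simp

theorem ccol2_lt (τ : ℕ → Bool) (c : Cl) : ccol2 τ c < 4 := by
  unfold ccol2; split_ifs <;> simp

theorem ccol3_lt (τ : ℕ → Bool) (c : Cl) : ccol3 τ c < 4 := by
  unfold ccol3; split_ifs <;> simp

theorem ccol4_lt (τ : ℕ → Bool) (c : Cl) : ccol4 τ c < 4 := by
  unfold ccol4; split_ifs <;> simp

/-- Every index below the number of terminals is of one of three kinds. -/
theorem index_cases {φ : List Cl} {i : ℕ} (hi : i < 4 + nV φ + 5 * φ.length) :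
    i < 4 ∨ (∃ v < nV φ, i = 4 + v) ∨ ∃ j < φ.length, ∃ t < 5, i = 4 + nV φ + 5 * j + t := by
  rcases Nat.lt_or_ge i 4 with h | h
  · exact Or.inl h
  rcases Nat.lt_or_ge i (4 + nV φ) with h' | h'
  · exact Or.inr (Or.inl ⟨i - 4, by omega, by omega⟩)
  · exact Or.inr (Or.inr ⟨(i - (4 + nV φ)) / 5, by omega, (i - (4 + nV φ)) % 5,
      Nat.mod_lt _ (by omega), by omega⟩)

theorem isPath_sol {φ : List Cl} {τ : ℕ → Bool} {i : ℕ} {t : ℕ × ℕ}
    (h : (termsL (kk φ) (nV φ) φ.length)[i]? = some t) :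
    (mkInst φ).IsPath (sol φ τ i) t.1 t.2 := by
  have hi : i < 4 + nV φ + 5 * φ.length := by
    rw [← termsL_length (kk φ)]
    exact (List.getElem?_eq_some_iff.1 h).1
  have hk : kk φ = 4 + nV φ + 5 * φ.length := rfl
  rcases index_cases hi with h4 | ⟨v, hv, rfl⟩ | ⟨j, hj, s, hs, rfl⟩
  · rw [termsL_K _ _ _ _ h4] at h
    have key : ∀ a b : ℕ, a ≠ b → (a, b) ∈ baseArcs → (mkInst φ).IsPath [a, b] a b :=
      fun a b hab hm => ⟨by simp [hab], rfl, rfl, by
        rw [List.isChain_pair]; exact arc_of_base hm⟩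
    interval_cases i
    · simp only [List.getElem?_cons_zero, Option.some.injEq] at h
      subst h
      exact key 0 7 (by omega) (by decide)
    · simp only [List.getElem?_cons_succ, List.getElem?_cons_zero, Option.some.injEq] at h
      subst h
      exact key 6 1 (by omega) (by decide)
    · simp only [List.getElem?_cons_succ, List.getElem?_cons_zero, Option.some.injEq] at h
      subst h
      exact key 2 9 (by omega) (by decide)
    · simp only [List.getElem?_cons_succ, List.getElem?_cons_zero, Option.some.injEq] at h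
      subst h
      exact key 8 3 (by omega) (by decide)
  · rw [termsL_Y _ _ _ _ hv] at h
    simp only [Option.some.injEq] at h
    subst h
    rw [sol_Y _ _ hv]
    exact isPath_Y (by split_ifs <;> simp) (by omega)
  · rw [termsL_C _ _ _ _ _ hj hs] at h
    rw [sol_B _ _ _ _ hs]
    have hB : 4 + nV φ + 5 * j + s < kk φ := by omega
    generalize hBd : 4 + nV φ + 5 * j = B at *
    interval_cases s
    · simp only [termsC, List.getElem?_cons_zero, Option.some.injEq] at h
      subst h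
      exact isPath_W (xcol_or _ _) (by omega)
    · simp only [termsC, List.getElem?_cons_succ, List.getElem?_cons_zero, Option.some.injEq] at h
      subst h
      exact isPath_W (xcol'_or _ _) (by omega)
    · simp only [termsC, List.getElem?_cons_succ, List.getElem?_cons_zero, Option.some.injEq] at h
      subst h
      exact isPath_C (ccol2_lt _ _) (by omega)
    · simp only [termsC, List.getElem?_cons_succ, List.getElem?_cons_zero, Option.some.injEq] at h
      subst h
      exact isPath_C (ccol3_lt _ _) (by omega)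
    · simp only [termsC, List.getElem?_cons_succ, List.getElem?_cons_zero, Option.some.injEq] at h
      subst h
      exact isPath_C (ccol4_lt _ _) (by omega)

/-- The list `P` avoids all paths of the first kind of colour `c`. -/
def Avoid (k : ℕ) (P : List ℕ) (c : ℕ) : Prop :=
  ∀ h < k, (pth 0 4 c 5 k h).Disjoint P

theorem avoid_W {k c x i : ℕ} (hc : c < 4) (hx : x < 4) (h : c ≠ x) :
    Avoid k (pth (2 * k) 6 x 7 (3 * k) i) c := by
  intro g hg v h1 h2
  rw [mem_pth] at h1 h2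
  omega

theorem avoid_Y {k c x i : ℕ} (hc : c < 4) (hx : x < 4) (h : c ≠ x) :
    Avoid k (pth (4 * k) 8 x 9 (5 * k) i) c := by
  intro g hg v h1 h2
  rw [mem_pth] at h1 h2
  omega

theorem avoid_0 {k c : ℕ} (hc : c < 4) (h : c ≠ 0) : Avoid k [0, 7] c := by
  intro g hg v h1 h2
  rw [mem_pth] at h1
  simp only [List.mem_cons, List.not_mem_nil, or_false] at h2
  omega

theorem avoid_1 {k c : ℕ} (hc : c < 4) (h : c ≠ 1) : Avoid k [6, 1] c := by
  intro g hg v h1 h2
  rw [mem_pth] at h1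
  simp only [List.mem_cons, List.not_mem_nil, or_false] at h2
  omega

theorem avoid_2 {k c : ℕ} (hc : c < 4) (h : c ≠ 2) : Avoid k [2, 9] c := by
  intro g hg v h1 h2
  rw [mem_pth] at h1
  simp only [List.mem_cons, List.not_mem_nil, or_false] at h2
  omega

theorem avoid_3 {k c : ℕ} (hc : c < 4) (h : c ≠ 3) : Avoid k [8, 3] c := by
  intro g hg v h1 h2
  rw [mem_pth] at h1
  simp only [List.mem_cons, List.not_mem_nil, or_false] at h2
  omega

theorem grp_complete {k c h a a' : ℕ} {P : ℕ → List ℕ} {l : Lit} (hh : h < k)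
    (hP : P h = pth 0 4 c 5 k h) (h1 : Avoid k (P a) c) (h2 : Avoid k (P a') c)
    (h3 : Avoid k (P (4 + l.2)) c) (h4 : Avoid k (P (if l.1 then 2 else 3)) c) :
    ∀ e ∈ grp h a a' l, (P e.1).Disjoint (P e.2) := by
  intro e he
  simp only [grp, List.mem_cons, List.not_mem_nil, or_false] at he
  rcases he with rfl | rfl | rfl | rfl
  · simp only; rw [hP]; exact h1 h hh
  · simp only; rw [hP]; exact h2 h hh
  · simp only; rw [hP]; exact h3 h hh
  · simp only; rw [hP]; exact h4 h hh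

/-- A path of the first kind may have the colour that stands for a satisfied literal. -/
theorem avoid_lit_true {φ : List Cl} {τ : ℕ → Bool} {l : Lit} (hl : l.2 < nV φ)
    (h : τ l.2 = l.1) : Avoid (kk φ) (sol φ τ (4 + l.2)) (if l.1 then 3 else 2) ∧
      Avoid (kk φ) (sol φ τ (if l.1 then 2 else 3)) (if l.1 then 3 else 2) := by
  rw [sol_Y _ _ hl, h]
  cases l.1 with
  | true => exact ⟨avoid_Y (by simp) (by simp) (by simp), by simpa [sol_2] using avoid_2 (by simp) (by simp)⟩
  | false => exact ⟨avoid_Y (by simp) (by simp) (by simp), by simpa [sol_3] using avoid_3 (by simp) (by simp)⟩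

theorem avoid_lit_low {φ : List Cl} {τ : ℕ → Bool} {l : Lit} {c : ℕ} (hl : l.2 < nV φ)
    (h : c < 2) : Avoid (kk φ) (sol φ τ (4 + l.2)) c ∧
      Avoid (kk φ) (sol φ τ (if l.1 then 2 else 3)) c := by
  rw [sol_Y _ _ hl]
  refine ⟨avoid_Y (by omega) (by split_ifs <;> simp) (by split_ifs <;> omega), ?_⟩
  cases l.1 with
  | true => simpa [sol_2] using avoid_2 (by omega) (by omega)
  | false => simpa [sol_3] using avoid_3 (by omega) (by omega)

theorem solvable_of_sat {φ : List Cl} (h : Sat3 φ) : (mkInst φ).Solvable := by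
  obtain ⟨τ, hτ⟩ := h
  refine ⟨sol φ τ, fun i t ht => isPath_sol ht, ?_⟩
  intro e he
  change e ∈ confL (nV φ) φ at he
  unfold confL at he
  obtain ⟨j, hj, he⟩ := List.mem_flatMap.1 he
  rw [List.mem_range] at hj
  have hget : φ.getD j default ∈ φ := by
    have : φ.getD j default = φ[j] := by simp [hj]
    rw [this]
    exact List.getElem_mem _
  have s0 := sol_B φ τ j 0 (by omega)
  have s1 := sol_B φ τ j 1 (by omega)
  have s2 := sol_B φ τ j 2 (by omega)
  have s3 := sol_B φ τ j 3 (by omega)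
  have s4 := sol_B φ τ j 4 (by omega)
  rw [if_pos rfl] at s0
  rw [if_neg (by omega), if_pos rfl] at s1
  rw [if_neg (by omega), if_neg (by omega), if_pos rfl] at s2
  rw [if_neg (by omega), if_neg (by omega), if_neg (by omega), if_pos rfl] at s3
  rw [if_neg (by omega), if_neg (by omega), if_neg (by omega), if_neg (by omega)] at s4
  have hk : kk φ = 4 + nV φ + 5 * φ.length := rfl
  have hB : 4 + nV φ + 5 * j + 4 < kk φ := by omega
  have hsat := hτ _ hget
  obtain ⟨v1, v2, v3⟩ := var_lt hget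
  generalize φ.getD j default = c at *
  generalize 4 + nV φ + 5 * j = B at *
  have z0 : xcol τ c < 4 := by rcases xcol_or τ c with h | h <;> omega
  have z1 : xcol' τ c < 4 := by rcases xcol'_or τ c with h | h <;> omega
  have aB : ∀ d < 4, d ≠ xcol τ c → Avoid (kk φ) (sol φ τ B) d := fun d hd hne => by
    rw [s0]
    exact avoid_W hd z0 hne
  have aB1 : ∀ d < 4, d ≠ xcol' τ c → Avoid (kk φ) (sol φ τ (B + 1)) d := fun d hd hne => by
    rw [s1]
    exact avoid_W hd z1 hne
  have a0 : ∀ d < 4, d ≠ 0 → Avoid (kk φ) (sol φ τ 0) d := fun d hd hne => avoid_0 hd hne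
  have a1 : ∀ d < 4, d ≠ 1 → Avoid (kk φ) (sol φ τ 1) d := fun d hd hne => avoid_1 hd hne
  unfold confC at he
  rw [List.mem_append, List.mem_append] at he
  unfold ClSat LitSat at hsat
  rcases he with (he | he) | he
  · -- the third path
    have key : Avoid (kk φ) (sol φ τ B) (ccol2 τ c) ∧ Avoid (kk φ) (sol φ τ (B + 1)) (ccol2 τ c) ∧
        Avoid (kk φ) (sol φ τ (4 + c.2.2.2)) (ccol2 τ c) ∧
        Avoid (kk φ) (sol φ τ (if c.2.2.1 then 2 else 3)) (ccol2 τ c) := by
      by_cases h1 : τ c.1.2 = c.1.1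
      · have e : ccol2 τ c = 1 := by simp [ccol2, h1]
        have e0 : xcol τ c = 0 := by simp [xcol, h1]
        have e1 : xcol' τ c = 0 := by simp [xcol', h1]
        rw [e]
        have := avoid_lit_low (φ := φ) (τ := τ) (l := c.2.2) (c := 1) v3 (by omega)
        exact ⟨aB 1 (by omega) (by omega), aB1 1 (by omega) (by omega), this.1, this.2⟩
      by_cases h2 : τ c.2.1.2 = c.2.1.1
      · have e : ccol2 τ c = 0 := by simp [ccol2, h1, h2]
        have e0 : xcol τ c = 1 := by simp [xcol, h1]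
        have e1 : xcol' τ c = 1 := by simp [xcol', h1, h2]
        rw [e]
        have := avoid_lit_low (φ := φ) (τ := τ) (l := c.2.2) (c := 0) v3 (by omega)
        exact ⟨aB 0 (by omega) (by omega), aB1 0 (by omega) (by omega), this.1, this.2⟩
      · have e : ccol2 τ c = if c.2.2.1 then 3 else 2 := by simp [ccol2, h1, h2]
        have e0 : xcol τ c = 1 := by simp [xcol, h1]
        have e1 : xcol' τ c = 0 := by simp [xcol', h1, h2]
        have h3 : τ c.2.2.2 = c.2.2.1 := by tauto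
        rw [e]
        have := avoid_lit_true (φ := φ) (τ := τ) (l := c.2.2) v3 h3
        have hlt : (if c.2.2.1 then 3 else 2) < 4 := by split_ifs <;> simp
        have hge : 2 ≤ (if c.2.2.1 then 3 else 2) := by split_ifs <;> simp
        exact ⟨aB _ hlt (by omega), aB1 _ hlt (by omega), this.1, this.2⟩
    exact grp_complete (by omega) s2 key.1 key.2.1 key.2.2.1 key.2.2.2 e he
  · -- the fourth path
    have key : Avoid (kk φ) (sol φ τ B) (ccol3 τ c) ∧ Avoid (kk φ) (sol φ τ 1) (ccol3 τ c) ∧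
        Avoid (kk φ) (sol φ τ (4 + c.1.2)) (ccol3 τ c) ∧
        Avoid (kk φ) (sol φ τ (if c.1.1 then 2 else 3)) (ccol3 τ c) := by
      by_cases h1 : τ c.1.2 = c.1.1
      · have e : ccol3 τ c = if c.1.1 then 3 else 2 := by simp [ccol3, h1]
        have e0 : xcol τ c = 0 := by simp [xcol, h1]
        rw [e]
        have := avoid_lit_true (φ := φ) (τ := τ) (l := c.1) v1 h1
        have hlt : (if c.1.1 then 3 else 2) < 4 := by split_ifs <;> simp
        have hge : 2 ≤ (if c.1.1 then 3 else 2) := by split_ifs <;> simp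
        exact ⟨aB _ hlt (by omega), a1 _ hlt (by omega), this.1, this.2⟩
      · have e : ccol3 τ c = 0 := by simp [ccol3, h1]
        have e0 : xcol τ c = 1 := by simp [xcol, h1]
        rw [e]
        have := avoid_lit_low (φ := φ) (τ := τ) (l := c.1) (c := 0) v1 (by omega)
        exact ⟨aB 0 (by omega) (by omega), a1 0 (by omega) (by omega), this.1, this.2⟩
    exact grp_complete (by omega) s3 key.1 key.2.1 key.2.2.1 key.2.2.2 e he
  · -- the fifth path
    have key : Avoid (kk φ) (sol φ τ (B + 1)) (ccol4 τ c) ∧ Avoid (kk φ) (sol φ τ 0) (ccol4 τ c) ∧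
        Avoid (kk φ) (sol φ τ (4 + c.2.1.2)) (ccol4 τ c) ∧
        Avoid (kk φ) (sol φ τ (if c.2.1.1 then 2 else 3)) (ccol4 τ c) := by
      by_cases h1 : τ c.1.2 = c.1.1
      · have e : ccol4 τ c = 1 := by simp [ccol4, h1]
        have e1 : xcol' τ c = 0 := by simp [xcol', h1]
        rw [e]
        have := avoid_lit_low (φ := φ) (τ := τ) (l := c.2.1) (c := 1) v2 (by omega)
        exact ⟨aB1 1 (by omega) (by omega), a0 1 (by omega) (by omega), this.1, this.2⟩
      by_cases h2 : τ c.2.1.2 = c.2.1.1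
      · have e : ccol4 τ c = if c.2.1.1 then 3 else 2 := by simp [ccol4, h1, h2]
        have e1 : xcol' τ c = 1 := by simp [xcol', h1, h2]
        rw [e]
        have := avoid_lit_true (φ := φ) (τ := τ) (l := c.2.1) v2 h2
        have hlt : (if c.2.1.1 then 3 else 2) < 4 := by split_ifs <;> simp
        have hge : 2 ≤ (if c.2.1.1 then 3 else 2) := by split_ifs <;> simp
        exact ⟨aB1 _ hlt (by omega), a0 _ hlt (by omega), this.1, this.2⟩
      · have e : ccol4 τ c = 1 := by simp [ccol4, h1, h2]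
        have e1 : xcol' τ c = 0 := by simp [xcol', h1, h2]
        rw [e]
        have := avoid_lit_low (φ := φ) (τ := τ) (l := c.2.1) (c := 1) v2 (by omega)
        exact ⟨aB1 1 (by omega) (by omega), a0 1 (by omega) (by omega), this.1, this.2⟩
    exact grp_complete (by omega) s4 key.1 key.2.1 key.2.2.1 key.2.2.2 e he

theorem solvable_iff (φ : List Cl) : (mkInst φ).Solvable ↔ Sat3 φ :=
  ⟨sat_of_solvable, solvable_of_sat⟩

end Pool.Agent.MP_f8c24f_lc
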