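import Pool.Agent.MP_f8c24f_lc.IsPlane

/-!
# The reduction: the faces of the drawing
-/

open Pool.Agent.H66

namespace Pool.Agent.MP_f8c24f_lc

theorem mem_frontier_face {D : Set (ℝ × ℝ)} {z p : ℝ × ℝ} (hp : p ∈ D)
    (h : ∀ t : ℝ, 0 ≤ t → t < 1 → ((1 - t) * z.1 + t * p.1, (1 - t) * z.2 + t * p.2) ∉ D) :
    p ∈ frontier (connectedComponentIn Dᶜ z) := by
  set g : ℝ → ℝ × ℝ := fun t => ((1 - t) * z.1 + t * p.1, (1 - t) * z.2 + t * p.2) with hg
  have hcont : Continuous g := by fun_prop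
  have hpre : IsPreconnected (g '' Set.Ico 0 1) :=
    isPreconnected_Ico.image _ hcont.continuousOn
  have hz : z ∈ g '' Set.Ico 0 1 := ⟨0, by simp, by simp [hg]⟩
  have hsub : g '' Set.Ico 0 1 ⊆ Dᶜ := by
    rintro _ ⟨t, ht, rfl⟩
    exact h t ht.1 ht.2
  have hU : g '' Set.Ico 0 1 ⊆ connectedComponentIn Dᶜ z :=
    hpre.subset_connectedComponentIn hz hsub
  have hcl : p ∈ closure (connectedComponentIn Dᶜ z) := by
    refine closure_mono hU (image_closure_subset_closure_image hcont ⟨1, ?_, by simp [hg]⟩)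
    rw [closure_Ico (by norm_num)]
    simp
  refine ⟨hcl, fun hint => ?_⟩
  exact connectedComponentIn_subset _ _ (interior_subset hint) hp

theorem low_end : ∀ v < 4, (4, v) ∈ baseArcs := by decide

theorem notMem_drawing {φ : List Cl} {x y : ℝ}
    (h1 : ∀ a ∈ baseArcs, ∀ α β : ℝ, 0 ≤ α → 0 ≤ β → α + β = 1 →
      x = α * (q a.1).1 + β * (q a.2).1 → y = α * (q a.1).2 + β * (q a.2).2 → False)
    (h2 : ∀ T < 6, ∀ s : ℝ, 0 ≤ s → s < 1 → x = cX T → y = cY T + cS T * s → False) :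
    ((x, hh φ * y) : ℝ × ℝ) ∉ (mkInst φ).drawing := by
  have hH := hh_pos φ
  have h2' : ∀ T < 6, ∀ s : ℝ, 0 ≤ s → s ≤ kk φ →
      ((x, hh φ * y) : ℝ × ℝ) ≠ ((cX T : ℝ), cY T * hh φ + cS T * s) := by
    intro T hT s hs hsk he
    rw [Prod.mk.injEq] at he
    refine h2 T hT (s / hh φ) (div_nonneg hs hH.le) ?_ he.1 ?_
    · rw [div_lt_one hH]
      exact lt_of_le_of_lt hsk (kk_lt_hh φ)
    · apply mul_left_cancel₀ hH.ne'
      rw [he.2]
      field_simp
  rintro (⟨v, hv, he⟩ | ⟨a, ha, hz⟩)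
  · have hlen : (mkInst φ).pos.length = 10 + 6 * kk φ := posL_length _
    rw [hlen] at hv
    rcases vertex_cases' hv with h4 | ⟨T, hT, d, hd, rfl⟩
    · rw [pt_base (by omega), Prod.mk.injEq] at he
      refine h1 (4, v) (low_end v h4) 0 1 le_rfl zero_le_one (by norm_num) ?_ ?_
      · simp only
        rw [he.1]
        ring
      · simp only
        have := mul_left_cancel₀ hH.ne' he.2
        rw [this]
        ring
    · rw [pt_node hT hd] at he
      exact h2' T hT d (Nat.cast_nonneg d) (by exact_mod_cast hd) he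
  · rcases arcs_cases ha with h | ⟨T, hT, i, hi, rfl⟩
    · obtain ⟨α, β, y', hα, hβ, hαβ, hx, hy, hzy⟩ := seg_base h hz
      simp only at hx hzy
      have hyy : y = y' := mul_left_cancel₀ hH.ne' hzy
      rw [← hyy] at hy
      exact h1 a h α β hα hβ hαβ hx hy
    · obtain ⟨s, hs1, hs2, hs3⟩ := seg_chain hT hi hz
      have hi0 : (0 : ℝ) ≤ i := Nat.cast_nonneg _
      have hik : (i : ℝ) + 1 ≤ kk φ := by exact_mod_cast hi
      exact h2' T hT s (by linarith) (by linarith) hs3

theorem q_val : q 0 = (-3, 0) ∧ q 1 = (-1, 0) ∧ q 2 = (1, 0) ∧ q 3 = (3, 0) ∧ q 4 = (0, 4) ∧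
    q 5 = (0, -4) ∧ q 6 = (-2, 1) ∧ q 7 = (-2, -1) ∧ q 8 = (2, 1) ∧ q 9 = (2, -1) := by
  decide

theorem region_left {φ : List Cl} {x y : ℝ} (h1 : -3 < x) (h2 : x < -2) (h3 : y < x + 3)
    (h4 : -y < x + 3) : ((x, hh φ * y) : ℝ × ℝ) ∉ (mkInst φ).drawing := by
  refine notMem_drawing ?_ ?_
  · intro a ha α β hα hβ hαβ hx hy
    obtain ⟨q0, q1, q2, q3, q4, q5, q6, q7, q8, q9⟩ := q_val
    rw [mem_baseArcs] at ha
    rcases ha with rfl | rfl | rfl | rfl | rfl | rfl | rfl | rfl | rfl | rfl | rfl | rfl | rfl |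
      rfl | rfl | rfl <;>
    simp only [q0, q1, q2, q3, q4, q5, q6, q7, q8, q9] at hx hy <;> push_cast at hx hy <;>
    linarith
  · intro T hT s hs hs1 hx hy
    interval_cases T <;>
    simp only [cX, cY, cS, List.getD_cons_succ, List.getD_cons_zero] at hx hy <;>
    push_cast at hx hy <;> linarith

theorem region_right {φ : List Cl} {x y : ℝ} (h1 : 2 < x) (h2 : x < 3) (h3 : y < 3 - x)
    (h4 : -y < 3 - x) : ((x, hh φ * y) : ℝ × ℝ) ∉ (mkInst φ).drawing := by
  refine notMem_drawing ?_ ?_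
  · intro a ha α β hα hβ hαβ hx hy
    obtain ⟨q0, q1, q2, q3, q4, q5, q6, q7, q8, q9⟩ := q_val
    rw [mem_baseArcs] at ha
    rcases ha with rfl | rfl | rfl | rfl | rfl | rfl | rfl | rfl | rfl | rfl | rfl | rfl | rfl |
      rfl | rfl | rfl <;>
    simp only [q0, q1, q2, q3, q4, q5, q6, q7, q8, q9] at hx hy <;> push_cast at hx hy <;>
    linarith
  · intro T hT s hs hs1 hx hy
    interval_cases T <;>
    simp only [cX, cY, cS, List.getD_cons_succ, List.getD_cons_zero] at hx hy <;>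
    push_cast at hx hy <;> linarith

theorem axis_left {φ : List Cl} {x : ℝ} (h1 : -3 < x) (h2 : x < -1) :
    ((x, hh φ * 0) : ℝ × ℝ) ∉ (mkInst φ).drawing := by
  refine notMem_drawing ?_ ?_
  · intro a ha α β hα hβ hαβ hx hy
    obtain ⟨q0, q1, q2, q3, q4, q5, q6, q7, q8, q9⟩ := q_val
    rw [mem_baseArcs] at ha
    rcases ha with rfl | rfl | rfl | rfl | rfl | rfl | rfl | rfl | rfl | rfl | rfl | rfl | rfl |
      rfl | rfl | rfl <;>
    simp only [q0, q1, q2, q3, q4, q5, q6, q7, q8, q9] at hx hy <;> push_cast at hx hy <;>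
    linarith
  · intro T hT s hs hs1 hx hy
    interval_cases T <;>
    simp only [cX, cY, cS, List.getD_cons_succ, List.getD_cons_zero] at hx hy <;>
    push_cast at hx hy <;> linarith

theorem axis_right {φ : List Cl} {x : ℝ} (h1 : 1 < x) (h2 : x < 3) :
    ((x, hh φ * 0) : ℝ × ℝ) ∉ (mkInst φ).drawing := by
  refine notMem_drawing ?_ ?_
  · intro a ha α β hα hβ hαβ hx hy
    obtain ⟨q0, q1, q2, q3, q4, q5, q6, q7, q8, q9⟩ := q_val
    rw [mem_baseArcs] at ha
    rcases ha with rfl | rfl | rfl | rfl | rfl | rfl | rfl | rfl | rfl | rfl | rfl | rfl | rfl |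
      rfl | rfl | rfl <;>
    simp only [q0, q1, q2, q3, q4, q5, q6, q7, q8, q9] at hx hy <;> push_cast at hx hy <;>
    linarith
  · intro T hT s hs hs1 hx hy
    interval_cases T <;>
    simp only [cX, cY, cS, List.getD_cons_succ, List.getD_cons_zero] at hx hy <;>
    push_cast at hx hy <;> linarith

theorem region_outer {φ : List Cl} {x y : ℝ} (h1 : 0 < x)
    (h2 : 12 < 4 * x + 3 * y ∨ 12 < 4 * x - 3 * y) :
    ((x, hh φ * y) : ℝ × ℝ) ∉ (mkInst φ).drawing := by
  refine notMem_drawing ?_ ?_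
  · intro a ha α β hα hβ hαβ hx hy
    obtain ⟨q0, q1, q2, q3, q4, q5, q6, q7, q8, q9⟩ := q_val
    rw [mem_baseArcs] at ha
    rcases ha with rfl | rfl | rfl | rfl | rfl | rfl | rfl | rfl | rfl | rfl | rfl | rfl | rfl |
      rfl | rfl | rfl <;>
    simp only [q0, q1, q2, q3, q4, q5, q6, q7, q8, q9] at hx hy <;> push_cast at hx hy <;>
    rcases h2 with h2 | h2 <;> linarith
  · intro T hT s hs hs1 hx hy
    interval_cases T <;>
    simp only [cX, cY, cS, List.getD_cons_succ, List.getD_cons_zero] at hx hy <;>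
    push_cast at hx hy <;> rcases h2 with h2 | h2 <;> linarith

/-! ### Terminals and faces -/

theorem pt_mem_drawing {φ : List Cl} {v : ℕ} (hv : v < 10 + 6 * kk φ) :
    (mkInst φ).pt v ∈ (mkInst φ).drawing := by
  refine Or.inl ⟨v, ?_, rfl⟩
  have hlen : (mkInst φ).pos.length = 10 + 6 * kk φ := posL_length _
  rw [hlen]
  exact hv

/-- A face of the drawing. -/
def face (φ : List Cl) (x : ℝ) : Set (ℝ × ℝ) :=
  connectedComponentIn (mkInst φ).drawingᶜ (x, 0)

theorem left_ray {φ : List Cl} {v : ℕ} {y : ℝ} (hv : v < 10 + 6 * kk φ)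
    (hp : (mkInst φ).pt v = (-2, hh φ * y)) (h1 : y ≤ 1) (h2 : -1 ≤ y) :
    (mkInst φ).pt v ∈ frontier (face φ (-5 / 2)) := by
  refine mem_frontier_face (pt_mem_drawing hv) fun t ht0 ht1 => ?_
  rw [hp]
  have e : (((1 - t) * (-5 / 2) + t * (-2), (1 - t) * 0 + t * (hh φ * y)) : ℝ × ℝ) =
      (-5 / 2 + t / 2, hh φ * (t * y)) := by
    refine Prod.ext ?_ ?_ <;> simp only <;> ring
  simp only
  rw [e]
  have k1 : t * y ≤ t := by nlinarith
  have k2 : -(t * y) ≤ t := by nlinarith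
  exact region_left (by linarith) (by linarith) (by linarith) (by linarith)

theorem right_ray {φ : List Cl} {v : ℕ} {y : ℝ} (hv : v < 10 + 6 * kk φ)
    (hp : (mkInst φ).pt v = (2, hh φ * y)) (h1 : y ≤ 1) (h2 : -1 ≤ y) :
    (mkInst φ).pt v ∈ frontier (face φ (5 / 2)) := by
  refine mem_frontier_face (pt_mem_drawing hv) fun t ht0 ht1 => ?_
  rw [hp]
  have e : (((1 - t) * (5 / 2) + t * 2, (1 - t) * 0 + t * (hh φ * y)) : ℝ × ℝ) =
      (5 / 2 - t / 2, hh φ * (t * y)) := by
    refine Prod.ext ?_ ?_ <;> simp only <;> ring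
  simp only
  rw [e]
  have k1 : t * y ≤ t := by nlinarith
  have k2 : -(t * y) ≤ t := by nlinarith
  exact region_right (by linarith) (by linarith) (by linarith) (by linarith)

theorem left_axis {φ : List Cl} {v : ℕ} {x : ℝ} (hv : v < 10 + 6 * kk φ)
    (hp : (mkInst φ).pt v = (x, 0)) (h1 : -3 ≤ x) (h2 : x ≤ -1) :
    (mkInst φ).pt v ∈ frontier (face φ (-5 / 2)) := by
  refine mem_frontier_face (pt_mem_drawing hv) fun t ht0 ht1 => ?_
  rw [hp]
  have e : (((1 - t) * (-5 / 2) + t * x, (1 - t) * 0 + t * 0) : ℝ × ℝ) =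
      (-5 / 2 + t * (x + 5 / 2), hh φ * 0) := by
    refine Prod.ext ?_ ?_ <;> simp only <;> ring
  simp only
  rw [e]
  have k1 : t * (x + 5 / 2) ≤ t * (3 / 2) := by nlinarith
  have k2 : t * (-1 / 2) ≤ t * (x + 5 / 2) := by nlinarith
  exact axis_left (by linarith) (by linarith)

theorem right_axis {φ : List Cl} {v : ℕ} {x : ℝ} (hv : v < 10 + 6 * kk φ)
    (hp : (mkInst φ).pt v = (x, 0)) (h1 : 1 ≤ x) (h2 : x ≤ 3) :
    (mkInst φ).pt v ∈ frontier (face φ (5 / 2)) := by
  refine mem_frontier_face (pt_mem_drawing hv) fun t ht0 ht1 => ?_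
  rw [hp]
  have e : (((1 - t) * (5 / 2) + t * x, (1 - t) * 0 + t * 0) : ℝ × ℝ) =
      (5 / 2 + t * (x - 5 / 2), hh φ * 0) := by
    refine Prod.ext ?_ ?_ <;> simp only <;> ring
  simp only
  rw [e]
  have k1 : t * (x - 5 / 2) ≤ t * (1 / 2) := by nlinarith
  have k2 : t * (-3 / 2) ≤ t * (x - 5 / 2) := by nlinarith
  exact axis_right (by linarith) (by linarith)

theorem outer_ray {φ : List Cl} {v : ℕ} {y : ℝ} (hv : v < 10 + 6 * kk φ)
    (hp : (mkInst φ).pt v = (0, hh φ * y)) (h : 4 ≤ y ∨ y ≤ -4) :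
    (mkInst φ).pt v ∈ frontier (face φ 4) := by
  refine mem_frontier_face (pt_mem_drawing hv) fun t ht0 ht1 => ?_
  rw [hp]
  have e : (((1 - t) * 4 + t * 0, (1 - t) * 0 + t * (hh φ * y)) : ℝ × ℝ) =
      (4 - 4 * t, hh φ * (t * y)) := by
    refine Prod.ext ?_ ?_ <;> simp only <;> ring
  simp only
  rw [e]
  refine region_outer (by linarith) ?_
  rcases h with h | h
  · left
    have k1 : t * 4 ≤ t * y := by nlinarith
    linarith
  · right
    have k1 : t * y ≤ t * (-4) := by nlinarith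
    linarith

/-- The scaled height of a chain vertex. -/
theorem pt_node' {φ : List Cl} {T d : ℕ} (hT : T < 6) (hd : d ≤ kk φ) :
    (mkInst φ).pt (node (kk φ) T d) = ((cX T : ℝ), hh φ * (cY T + cS T * (d / hh φ))) := by
  rw [pt_node hT hd]
  have := (hh_pos φ).ne'
  refine Prod.ext rfl ?_
  simp only
  field_simp

theorem onFaces_mkInst (φ : List Cl) (p : ℕ) (hp : 3 ≤ p) : (mkInst φ).OnFaces p := by
  classical
  obtain ⟨q0, q1, q2, q3, q4, q5, q6, q7, q8, q9⟩ := q_val
  refine ⟨{face φ (-5 / 2), face φ (5 / 2), face φ 4}, Finset.card_le_three.trans hp, ?_, ?_⟩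
  · intro U hU
    simp only [Finset.mem_insert, Finset.mem_singleton] at hU
    rcases hU with rfl | rfl | rfl
    · refine ⟨(-5 / 2, 0), ?_, rfl⟩
      have := axis_left (φ := φ) (x := -5 / 2) (by norm_num) (by norm_num)
      rw [mul_zero] at this
      exact this
    · refine ⟨(5 / 2, 0), ?_, rfl⟩
      have := axis_right (φ := φ) (x := 5 / 2) (by norm_num) (by norm_num)
      rw [mul_zero] at this
      exact this
    · refine ⟨(4, 0), ?_, rfl⟩
      have := region_outer (φ := φ) (x := 4) (y := 0) (by norm_num) (Or.inl (by norm_num))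
      rw [mul_zero] at this
      exact this
  have hL : ∀ v, (mkInst φ).pt v ∈ frontier (face φ (-5 / 2)) →
      ∃ U ∈ ({face φ (-5 / 2), face φ (5 / 2), face φ 4} : Finset (Set (ℝ × ℝ))),
        (mkInst φ).pt v ∈ frontier U := fun v h => ⟨_, by simp, h⟩
  have hR : ∀ v, (mkInst φ).pt v ∈ frontier (face φ (5 / 2)) →
      ∃ U ∈ ({face φ (-5 / 2), face φ (5 / 2), face φ 4} : Finset (Set (ℝ × ℝ))),
        (mkInst φ).pt v ∈ frontier U := fun v h => ⟨_, by simp, h⟩
  have hO : ∀ v, (mkInst φ).pt v ∈ frontier (face φ 4) →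
      ∃ U ∈ ({face φ (-5 / 2), face φ (5 / 2), face φ 4} : Finset (Set (ℝ × ℝ))),
        (mkInst φ).pt v ∈ frontier U := fun v h => ⟨_, by simp, h⟩
  intro t ht
  obtain ⟨i, hi⟩ := List.mem_iff_getElem?.1 ht
  have hd : ∀ i < kk φ, 0 ≤ (((i + 1 : ℕ) : ℝ) / hh φ) ∧ (((i + 1 : ℕ) : ℝ) / hh φ) ≤ 1 := by
    intro i hi
    refine ⟨div_nonneg (Nat.cast_nonneg _) (hh_pos φ).le, ?_⟩
    rw [div_le_one (hh_pos φ)]
    have : ((i + 1 : ℕ) : ℝ) ≤ kk φ := by exact_mod_cast hi
    exact this.trans (kk_lt_hh φ).le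
  rcases terms_cases hi with ⟨h1, rfl⟩ | ⟨h1, rfl⟩ | ⟨h1, rfl⟩ | ⟨h1, rfl⟩ | ⟨h1, h2, rfl⟩ |
      ⟨h1, h2, rfl⟩ | ⟨h1, h2, rfl⟩
  · constructor
    · exact hL _ (left_axis (x := -3) (by omega) (by rw [pt_base (by omega), q0]; simp)
        (by norm_num) (by norm_num))
    · exact hL _ (left_ray (y := -1) (by omega) (by rw [pt_base (by omega), q7]; simp)
        (by norm_num) (by norm_num))
  · constructor
    · exact hL _ (left_ray (y := 1) (by omega) (by rw [pt_base (by omega), q6]; simp)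
        (by norm_num) (by norm_num))
    · exact hL _ (left_axis (x := -1) (by omega) (by rw [pt_base (by omega), q1]; simp)
        (by norm_num) (by norm_num))
  · constructor
    · exact hR _ (right_axis (x := 1) (by omega) (by rw [pt_base (by omega), q2]; simp)
        (by norm_num) (by norm_num))
    · exact hR _ (right_ray (y := -1) (by omega) (by rw [pt_base (by omega), q9]; simp)
        (by norm_num) (by norm_num))
  · constructor
    · exact hR _ (right_ray (y := 1) (by omega) (by rw [pt_base (by omega), q8]; simp)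
        (by norm_num) (by norm_num))
    · exact hR _ (right_axis (x := 3) (by omega) (by rw [pt_base (by omega), q3]; simp)
        (by norm_num) (by norm_num))
  · obtain ⟨d0, d1⟩ := hd i h2
    constructor
    · refine hO _ (outer_ray (y := 4 + 1 * (((i + 1 : ℕ) : ℝ) / hh φ)) (by simp only; omega) ?_
        (Or.inl (by linarith)))
      have := pt_node' (φ := φ) (T := 0) (d := i + 1) (by omega) (by omega)
      rw [node_succ, Nat.zero_mul, Nat.add_zero] at this
      rw [this]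
      simp [cX, cY, cS]
    · refine hO _ (outer_ray (y := -4 + (-1) * (((i + 1 : ℕ) : ℝ) / hh φ)) (by simp only; omega) ?_
        (Or.inr (by linarith)))
      have := pt_node' (φ := φ) (T := 1) (d := i + 1) (by omega) (by omega)
      rw [node_succ, Nat.one_mul] at this
      rw [this]
      simp [cX, cY, cS]
  · obtain ⟨d0, d1⟩ := hd i h2
    constructor
    · refine hL _ (left_ray (y := 1 + (-1) * (((i + 1 : ℕ) : ℝ) / hh φ)) (by simp only; omega) ?_
        (by linarith) (by linarith))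
      have := pt_node' (φ := φ) (T := 2) (d := i + 1) (by omega) (by omega)
      rw [node_succ] at this
      rw [this]
      simp [cX, cY, cS]
    · refine hL _ (left_ray (y := -1 + 1 * (((i + 1 : ℕ) : ℝ) / hh φ)) (by simp only; omega) ?_
        (by linarith) (by linarith))
      have := pt_node' (φ := φ) (T := 3) (d := i + 1) (by omega) (by omega)
      rw [node_succ] at this
      rw [this]
      simp [cX, cY, cS]
  · obtain ⟨d0, d1⟩ := hd i h2
    constructor
    · refine hR _ (right_ray (y := 1 + (-1) * (((i + 1 : ℕ) : ℝ) / hh φ)) (by simp only; omega) ?_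
        (by linarith) (by linarith))
      have := pt_node' (φ := φ) (T := 4) (d := i + 1) (by omega) (by omega)
      rw [node_succ] at this
      rw [this]
      simp [cX, cY, cS]
    · refine hR _ (right_ray (y := -1 + 1 * (((i + 1 : ℕ) : ℝ) / hh φ)) (by simp only; omega) ?_
        (by linarith) (by linarith))
      have := pt_node' (φ := φ) (T := 5) (d := i + 1) (by omega) (by omega)
      rw [node_succ] at this
      rw [this]
      simp [cX, cY, cS]

end Pool.Agent.MP_f8c24f_lc
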