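import Pool.Agent.MP_f8c24f_lc.Terms

/-!
# The reduction: the drawing
-/

open Pool.Agent.H66

namespace Pool.Agent.MP_f8c24f_lc

/-! ### Positions -/

/-- The `x`-coordinate of the `T`-th chain. -/
def cX (T : ℕ) : ℤ := [0, 0, -2, -2, 2, 2].getD T 0

/-- The scaled `y`-coordinate of the start of the `T`-th chain. -/
def cY (T : ℕ) : ℤ := [4, -4, 1, -1, 1, -1].getD T 0

/-- The direction of the `T`-th chain. -/
def cS (T : ℕ) : ℤ := [1, -1, -1, 1, -1, 1].getD T 0

/-- The vertices of the `T`-th chain. -/
def node (k T d : ℕ) : ℕ := if d = 0 then 4 + T else 9 + T * k + d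

/-- The arcs of the `T`-th chain. -/
def carc (k T i : ℕ) : ℕ × ℕ :=
  if T % 2 = 0 then (node k T (i + 1), node k T i) else (node k T i, node k T (i + 1))

theorem node_zero (k T : ℕ) : node k T 0 = 4 + T := rfl

theorem node_succ (k T i : ℕ) : node k T (i + 1) = 10 + T * k + i := by
  unfold node
  rw [if_neg (by omega)]
  ring

theorem node_pos {k T d : ℕ} (hd : d ≠ 0) : node k T d = 9 + T * k + d := by
  unfold node
  rw [if_neg hd]

theorem chain_eq {k i : ℕ} {a : ℕ × ℕ} (h : a ∈ chainArcs k i) :
    ∃ T < 6, a = carc k T i := by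
  rw [mem_chainArcs] at h
  rcases h with rfl | rfl | rfl | rfl | rfl | rfl
  · refine ⟨0, by omega, ?_⟩
    have e : (if i = 0 then 4 else 9 + i) = node k 0 i := by
      by_cases hi : i = 0
      · rw [if_pos hi, hi, node_zero]
      · rw [if_neg hi, node_pos hi]
        omega
    rw [e]
    unfold carc
    rw [if_pos (show 0 % 2 = 0 by omega), node_succ, Prod.mk.injEq]
    exact ⟨by omega, rfl⟩
  · refine ⟨1, by omega, ?_⟩
    have e : (if i = 0 then 5 else 9 + k + i) = node k 1 i := by
      by_cases hi : i = 0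
      · rw [if_pos hi, hi, node_zero]
      · rw [if_neg hi, node_pos hi]
        omega
    rw [e]
    unfold carc
    rw [if_neg (show ¬ 1 % 2 = 0 by omega), node_succ, Prod.mk.injEq]
    exact ⟨rfl, by omega⟩
  · refine ⟨2, by omega, ?_⟩
    have e : (if i = 0 then 6 else 9 + 2 * k + i) = node k 2 i := by
      by_cases hi : i = 0
      · rw [if_pos hi, hi, node_zero]
      · rw [if_neg hi, node_pos hi]
    rw [e]
    unfold carc
    rw [if_pos (show 2 % 2 = 0 by omega), node_succ, Prod.mk.injEq]
    exact ⟨by omega, rfl⟩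
  · refine ⟨3, by omega, ?_⟩
    have e : (if i = 0 then 7 else 9 + 3 * k + i) = node k 3 i := by
      by_cases hi : i = 0
      · rw [if_pos hi, hi, node_zero]
      · rw [if_neg hi, node_pos hi]
    rw [e]
    unfold carc
    rw [if_neg (show ¬ 3 % 2 = 0 by omega), node_succ, Prod.mk.injEq]
    exact ⟨rfl, by omega⟩
  · refine ⟨4, by omega, ?_⟩
    have e : (if i = 0 then 8 else 9 + 4 * k + i) = node k 4 i := by
      by_cases hi : i = 0
      · rw [if_pos hi, hi, node_zero]
      · rw [if_neg hi, node_pos hi]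
    rw [e]
    unfold carc
    rw [if_pos (show 4 % 2 = 0 by omega), node_succ, Prod.mk.injEq]
    exact ⟨by omega, rfl⟩
  · refine ⟨5, by omega, ?_⟩
    have e : (if i = 0 then 9 else 9 + 5 * k + i) = node k 5 i := by
      by_cases hi : i = 0
      · rw [if_pos hi, hi, node_zero]
      · rw [if_neg hi, node_pos hi]
    rw [e]
    unfold carc
    rw [if_neg (show ¬ 5 % 2 = 0 by omega), node_succ, Prod.mk.injEq]
    exact ⟨rfl, by omega⟩

theorem vertex_cases {k v : ℕ} (hv : v < 10 + 6 * k) :
    v < 10 ∨ ∃ T < 6, ∃ d, 1 ≤ d ∧ d ≤ k ∧ v = node k T d := by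
  rcases Nat.lt_or_ge v 10 with h | h
  · exact Or.inl h
  right
  unfold node
  rcases Nat.lt_or_ge v (10 + k) with h0 | h0
  · exact ⟨0, by omega, v - 9, by omega, by omega, by rw [if_neg (by omega)]; omega⟩
  rcases Nat.lt_or_ge v (10 + 2 * k) with h1 | h1
  · exact ⟨1, by omega, v - 9 - k, by omega, by omega, by rw [if_neg (by omega)]; omega⟩
  rcases Nat.lt_or_ge v (10 + 3 * k) with h2 | h2
  · exact ⟨2, by omega, v - 9 - 2 * k, by omega, by omega, by rw [if_neg (by omega)]; omega⟩
  rcases Nat.lt_or_ge v (10 + 4 * k) with h3 | h3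
  · exact ⟨3, by omega, v - 9 - 3 * k, by omega, by omega, by rw [if_neg (by omega)]; omega⟩
  rcases Nat.lt_or_ge v (10 + 5 * k) with h4 | h4
  · exact ⟨4, by omega, v - 9 - 4 * k, by omega, by omega, by rw [if_neg (by omega)]; omega⟩
  · exact ⟨5, by omega, v - 9 - 5 * k, by omega, by omega, by rw [if_neg (by omega)]; omega⟩

theorem node_lt {k T d : ℕ} (hT : T < 6) (hd : d ≤ k) : node k T d < 10 + 6 * k := by
  unfold node
  split_ifs
  · omega
  · interval_cases T <;> omega

/-- The scaled positions of the first ten vertices, followed by the ends of the chains. -/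
def q (v : ℕ) : ℤ × ℤ :=
  [(-3, 0), (-1, 0), (1, 0), (3, 0), (0, 4), (0, -4), (-2, 1), (-2, -1), (2, 1), (2, -1),
    (0, 5), (0, -5), (-2, 0), (-2, 0), (2, 0), (2, 0)].getD v (0, 0)

theorem posF_s4 (k v : ℕ) (hv : v = 4) :
    posF k v = ((0 : ℤ), (4 : ℤ) * ((k : ℤ) + 1) + (1) * ((0 : ℕ) : ℤ)) := by
  unfold posF
  rw [if_neg (by omega), if_neg (by omega), if_neg (by omega), 
      if_neg (by omega), if_pos (by omega)]
  exact Prod.ext (by simp only; omega) (by simp only; omega)

theorem posF_s5 (k v : ℕ) (hv : v = 5) :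
    posF k v = ((0 : ℤ), (-4 : ℤ) * ((k : ℤ) + 1) + (-1) * ((0 : ℕ) : ℤ)) := by
  unfold posF
  rw [if_neg (by omega), if_neg (by omega), if_neg (by omega), 
      if_neg (by omega), if_neg (by omega), if_pos (by omega)]
  exact Prod.ext (by simp only; omega) (by simp only; omega)

theorem posF_s6 (k v : ℕ) (hv : v = 6) :
    posF k v = ((-2 : ℤ), (1 : ℤ) * ((k : ℤ) + 1) + (-1) * ((0 : ℕ) : ℤ)) := by
  unfold posF
  rw [if_neg (by omega), if_neg (by omega), if_neg (by omega), 
      if_neg (by omega), if_neg (by omega), if_neg (by omega), 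
      if_pos (by omega)]
  exact Prod.ext (by simp only; omega) (by simp only; omega)

theorem posF_s7 (k v : ℕ) (hv : v = 7) :
    posF k v = ((-2 : ℤ), (-1 : ℤ) * ((k : ℤ) + 1) + (1) * ((0 : ℕ) : ℤ)) := by
  unfold posF
  rw [if_neg (by omega), if_neg (by omega), if_neg (by omega), 
      if_neg (by omega), if_neg (by omega), if_neg (by omega), 
      if_neg (by omega), if_pos (by omega)]
  exact Prod.ext (by simp only; omega) (by simp only; omega)

theorem posF_s8 (k v : ℕ) (hv : v = 8) :
    posF k v = ((2 : ℤ), (1 : ℤ) * ((k : ℤ) + 1) + (-1) * ((0 : ℕ) : ℤ)) := by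
  unfold posF
  rw [if_neg (by omega), if_neg (by omega), if_neg (by omega), 
      if_neg (by omega), if_neg (by omega), if_neg (by omega), 
      if_neg (by omega), if_neg (by omega), if_pos (by omega)]
  exact Prod.ext (by simp only; omega) (by simp only; omega)

theorem posF_s9 (k v : ℕ) (hv : v = 9) :
    posF k v = ((2 : ℤ), (-1 : ℤ) * ((k : ℤ) + 1) + (1) * ((0 : ℕ) : ℤ)) := by
  unfold posF
  rw [if_neg (by omega), if_neg (by omega), if_neg (by omega), 
      if_neg (by omega), if_neg (by omega), if_neg (by omega), 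
      if_neg (by omega), if_neg (by omega), if_neg (by omega), 
      if_pos (by omega)]
  exact Prod.ext (by simp only; omega) (by simp only; omega)

theorem posF_c0 (k d v : ℕ) (hd : 1 ≤ d) (hdk : d ≤ k) (hv : v = 9 + 0 * k + d) :
    posF k v = ((0 : ℤ), (4 : ℤ) * ((k : ℤ) + 1) + (1) * (d : ℤ)) := by
  unfold posF
  rw [if_neg (by omega), if_neg (by omega), if_neg (by omega), 
      if_neg (by omega), if_neg (by omega), if_neg (by omega), 
      if_neg (by omega), if_neg (by omega), if_neg (by omega), 
      if_neg (by omega), if_pos (by omega)]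
  exact Prod.ext (by simp only; omega) (by simp only; omega)

theorem posF_c1 (k d v : ℕ) (hd : 1 ≤ d) (hdk : d ≤ k) (hv : v = 9 + 1 * k + d) :
    posF k v = ((0 : ℤ), (-4 : ℤ) * ((k : ℤ) + 1) + (-1) * (d : ℤ)) := by
  unfold posF
  rw [if_neg (by omega), if_neg (by omega), if_neg (by omega), 
      if_neg (by omega), if_neg (by omega), if_neg (by omega), 
      if_neg (by omega), if_neg (by omega), if_neg (by omega), 
      if_neg (by omega), if_neg (by omega), if_pos (by omega)]
  exact Prod.ext (by simp only; omega) (by simp only; omega)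

theorem posF_c2 (k d v : ℕ) (hd : 1 ≤ d) (hdk : d ≤ k) (hv : v = 9 + 2 * k + d) :
    posF k v = ((-2 : ℤ), (1 : ℤ) * ((k : ℤ) + 1) + (-1) * (d : ℤ)) := by
  unfold posF
  rw [if_neg (by omega), if_neg (by omega), if_neg (by omega), 
      if_neg (by omega), if_neg (by omega), if_neg (by omega), 
      if_neg (by omega), if_neg (by omega), if_neg (by omega), 
      if_neg (by omega), if_neg (by omega), if_neg (by omega), 
      if_pos (by omega)]
  exact Prod.ext (by simp only; omega) (by simp only; omega)

theorem posF_c3 (k d v : ℕ) (hd : 1 ≤ d) (hdk : d ≤ k) (hv : v = 9 + 3 * k + d) :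
    posF k v = ((-2 : ℤ), (-1 : ℤ) * ((k : ℤ) + 1) + (1) * (d : ℤ)) := by
  unfold posF
  rw [if_neg (by omega), if_neg (by omega), if_neg (by omega), 
      if_neg (by omega), if_neg (by omega), if_neg (by omega), 
      if_neg (by omega), if_neg (by omega), if_neg (by omega), 
      if_neg (by omega), if_neg (by omega), if_neg (by omega), 
      if_neg (by omega), if_pos (by omega)]
  exact Prod.ext (by simp only; omega) (by simp only; omega)

theorem posF_c4 (k d v : ℕ) (hd : 1 ≤ d) (hdk : d ≤ k) (hv : v = 9 + 4 * k + d) :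
    posF k v = ((2 : ℤ), (1 : ℤ) * ((k : ℤ) + 1) + (-1) * (d : ℤ)) := by
  unfold posF
  rw [if_neg (by omega), if_neg (by omega), if_neg (by omega), 
      if_neg (by omega), if_neg (by omega), if_neg (by omega), 
      if_neg (by omega), if_neg (by omega), if_neg (by omega), 
      if_neg (by omega), if_neg (by omega), if_neg (by omega), 
      if_neg (by omega), if_neg (by omega), if_pos (by omega)]
  exact Prod.ext (by simp only; omega) (by simp only; omega)

theorem posF_c5 (k d v : ℕ) (hd : 1 ≤ d) (hdk : d ≤ k) (hv : v = 9 + 5 * k + d) :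
    posF k v = ((2 : ℤ), (-1 : ℤ) * ((k : ℤ) + 1) + (1) * (d : ℤ)) := by
  unfold posF
  rw [if_neg (by omega), if_neg (by omega), if_neg (by omega), 
      if_neg (by omega), if_neg (by omega), if_neg (by omega), 
      if_neg (by omega), if_neg (by omega), if_neg (by omega), 
      if_neg (by omega), if_neg (by omega), if_neg (by omega), 
      if_neg (by omega), if_neg (by omega), if_neg (by omega)]
  exact Prod.ext (by simp only; omega) (by simp only; omega)

theorem posF_b0 (k v : ℕ) (hv : v = 0) :
    posF k v = ((-3 : ℤ), ((k : ℤ) + 1) * (0)) := by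
  unfold posF
  rw [if_pos (by omega)]
  exact Prod.ext (by simp only; omega) (by simp only; omega)

theorem posF_b1 (k v : ℕ) (hv : v = 1) :
    posF k v = ((-1 : ℤ), ((k : ℤ) + 1) * (0)) := by
  unfold posF
  rw [if_neg (by omega), if_pos (by omega)]
  exact Prod.ext (by simp only; omega) (by simp only; omega)

theorem posF_b2 (k v : ℕ) (hv : v = 2) :
    posF k v = ((1 : ℤ), ((k : ℤ) + 1) * (0)) := by
  unfold posF
  rw [if_neg (by omega), if_neg (by omega), if_pos (by omega)]
  exact Prod.ext (by simp only; omega) (by simp only; omega)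

theorem posF_b3 (k v : ℕ) (hv : v = 3) :
    posF k v = ((3 : ℤ), ((k : ℤ) + 1) * (0)) := by
  unfold posF
  rw [if_neg (by omega), if_neg (by omega), if_neg (by omega), 
      if_pos (by omega)]
  exact Prod.ext (by simp only; omega) (by simp only; omega)

theorem posF_b4 (k v : ℕ) (hv : v = 4) :
    posF k v = ((0 : ℤ), ((k : ℤ) + 1) * (4)) := by
  unfold posF
  rw [if_neg (by omega), if_neg (by omega), if_neg (by omega), 
      if_neg (by omega), if_pos (by omega)]
  exact Prod.ext (by simp only; omega) (by simp only; omega)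

theorem posF_b5 (k v : ℕ) (hv : v = 5) :
    posF k v = ((0 : ℤ), ((k : ℤ) + 1) * (-4)) := by
  unfold posF
  rw [if_neg (by omega), if_neg (by omega), if_neg (by omega), 
      if_neg (by omega), if_neg (by omega), if_pos (by omega)]
  exact Prod.ext (by simp only; omega) (by simp only; omega)

theorem posF_b6 (k v : ℕ) (hv : v = 6) :
    posF k v = ((-2 : ℤ), ((k : ℤ) + 1) * (1)) := by
  unfold posF
  rw [if_neg (by omega), if_neg (by omega), if_neg (by omega), 
      if_neg (by omega), if_neg (by omega), if_neg (by omega), 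
      if_pos (by omega)]
  exact Prod.ext (by simp only; omega) (by simp only; omega)

theorem posF_b7 (k v : ℕ) (hv : v = 7) :
    posF k v = ((-2 : ℤ), ((k : ℤ) + 1) * (-1)) := by
  unfold posF
  rw [if_neg (by omega), if_neg (by omega), if_neg (by omega), 
      if_neg (by omega), if_neg (by omega), if_neg (by omega), 
      if_neg (by omega), if_pos (by omega)]
  exact Prod.ext (by simp only; omega) (by simp only; omega)

theorem posF_b8 (k v : ℕ) (hv : v = 8) :
    posF k v = ((2 : ℤ), ((k : ℤ) + 1) * (1)) := by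
  unfold posF
  rw [if_neg (by omega), if_neg (by omega), if_neg (by omega), 
      if_neg (by omega), if_neg (by omega), if_neg (by omega), 
      if_neg (by omega), if_neg (by omega), if_pos (by omega)]
  exact Prod.ext (by simp only; omega) (by simp only; omega)

theorem posF_b9 (k v : ℕ) (hv : v = 9) :
    posF k v = ((2 : ℤ), ((k : ℤ) + 1) * (-1)) := by
  unfold posF
  rw [if_neg (by omega), if_neg (by omega), if_neg (by omega), 
      if_neg (by omega), if_neg (by omega), if_neg (by omega), 
      if_neg (by omega), if_neg (by omega), if_neg (by omega), 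
      if_pos (by omega)]
  exact Prod.ext (by simp only; omega) (by simp only; omega)

theorem posF_node {k T d : ℕ} (hT : T < 6) (hd : d ≤ k) :
    posF k (node k T d) = (cX T, cY T * ((k : ℤ) + 1) + cS T * d) := by
  unfold node
  by_cases h0 : d = 0
  · subst h0
    rw [if_pos rfl]
    interval_cases T
    · exact posF_s4 k _ rfl
    · exact posF_s5 k _ rfl
    · exact posF_s6 k _ rfl
    · exact posF_s7 k _ rfl
    · exact posF_s8 k _ rfl
    · exact posF_s9 k _ rfl
  · rw [if_neg h0]
    interval_cases T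
    · exact posF_c0 k d _ (by omega) hd rfl
    · exact posF_c1 k d _ (by omega) hd rfl
    · exact posF_c2 k d _ (by omega) hd rfl
    · exact posF_c3 k d _ (by omega) hd rfl
    · exact posF_c4 k d _ (by omega) hd rfl
    · exact posF_c5 k d _ (by omega) hd rfl

theorem posF_base {k v : ℕ} (hv : v < 10) : posF k v = ((q v).1, ((k : ℤ) + 1) * (q v).2) := by
  interval_cases v
  · exact posF_b0 k _ rfl
  · exact posF_b1 k _ rfl
  · exact posF_b2 k _ rfl
  · exact posF_b3 k _ rfl
  · exact posF_b4 k _ rfl
  · exact posF_b5 k _ rfl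
  · exact posF_b6 k _ rfl
  · exact posF_b7 k _ rfl
  · exact posF_b8 k _ rfl
  · exact posF_b9 k _ rfl

theorem getD_posL {k v : ℕ} (hv : v < 10 + 6 * k) : (posL k).getD v (0, 0) = posF k v := by
  simp [posL, hv]

/-- The vertical scale. -/
noncomputable def hh (φ : List Cl) : ℝ := (kk φ : ℝ) + 1

theorem hh_pos (φ : List Cl) : 0 < hh φ := by unfold hh; positivity

theorem pt_node {φ : List Cl} {T d : ℕ} (hT : T < 6) (hd : d ≤ kk φ) :
    (mkInst φ).pt (node (kk φ) T d) = ((cX T : ℝ), cY T * hh φ + cS T * d) := by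
  unfold Instance.pt
  change ((((posL (kk φ)).getD _ (0, 0)).1 : ℝ), (((posL (kk φ)).getD _ (0, 0)).2 : ℝ)) = _
  rw [getD_posL (node_lt hT hd), posF_node hT hd]
  unfold hh
  push_cast
  rfl

theorem pt_base {φ : List Cl} {v : ℕ} (hv : v < 10) :
    (mkInst φ).pt v = (((q v).1 : ℝ), hh φ * (q v).2) := by
  unfold Instance.pt
  change ((((posL (kk φ)).getD _ (0, 0)).1 : ℝ), (((posL (kk φ)).getD _ (0, 0)).2 : ℝ)) = _
  rw [getD_posL (by omega), posF_base hv]
  unfold hh
  push_cast
  rfl

end Pool.Agent.MP_f8c24f_lc
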