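import Pool.Agent.MP_f8c24f_lc.Plane

/-!
# The reduction: the drawing is plane, continued
-/

open Pool.Agent.H66

namespace Pool.Agent.MP_f8c24f_lc

theorem vertex_cases' {k v : ℕ} (hv : v < 10 + 6 * k) :
    v < 4 ∨ ∃ T < 6, ∃ d ≤ k, v = node k T d := by
  rcases vertex_cases hv with h | ⟨T, hT, d, _, hd, rfl⟩
  · rcases Nat.lt_or_ge v 4 with h4 | h4
    · exact Or.inl h4
    · exact Or.inr ⟨v - 4, by omega, 0, by omega, by rw [node_zero]; omega⟩
  · exact Or.inr ⟨T, hT, d, hd, rfl⟩

theorem q_start : ∀ T < 6, q (4 + T) = (cX T, cY T) := by decide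

theorem q_end : ∀ T < 6, q (10 + T) = (cX T, cY T + cS T) := by decide

theorem cS_ne : ∀ T < 6, cS T ≠ 0 := by decide

theorem q_inj : ∀ v < 10, ∀ w < 10, q v = q w → v = w := by decide

theorem q_low : ∀ v < 4, ∀ T < 6, (q v).1 ≠ cX T := by decide

theorem seg_base {φ : List Cl} {a : ℕ × ℕ} (ha : a ∈ baseArcs) {z : ℝ × ℝ}
    (hz : z ∈ (mkInst φ).seg a) : ∃ α β y : ℝ, 0 ≤ α ∧ 0 ≤ β ∧ α + β = 1 ∧
      z.1 = α * (q a.1).1 + β * (q a.2).1 ∧ y = α * (q a.1).2 + β * (q a.2).2 ∧
      z.2 = hh φ * y := by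
  obtain ⟨h1, h2, -⟩ := base_lt a ha
  obtain ⟨α, β, hα, hβ, hαβ, rfl⟩ := hz
  refine ⟨α, β, _, hα, hβ, hαβ, ?_, rfl, ?_⟩
  · rw [pt_base h1, pt_base h2]
    simp
  · rw [pt_base h1, pt_base h2]
    simp only [Prod.snd_add, Prod.smul_snd, smul_eq_mul]
    ring

theorem seg_chain {φ : List Cl} {T i : ℕ} (hT : T < 6) (hi : i < kk φ) {z : ℝ × ℝ}
    (hz : z ∈ (mkInst φ).seg (carc (kk φ) T i)) :
    ∃ s : ℝ, (i : ℝ) ≤ s ∧ s ≤ i + 1 ∧ z = ((cX T : ℝ), cY T * hh φ + cS T * s) := by
  unfold Instance.seg carc at hz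
  split_ifs at hz
  · simp only at hz
    rw [pt_node hT (by omega), pt_node hT (by omega)] at hz
    obtain ⟨α, β, hα, hβ, hαβ, rfl⟩ := hz
    refine ⟨i + α, by linarith, by linarith, ?_⟩
    have : β = 1 - α := by linarith
    subst this
    refine Prod.ext ?_ ?_
    · simp only [Prod.fst_add, Prod.smul_fst, smul_eq_mul]
      ring
    · simp only [Prod.snd_add, Prod.smul_snd, smul_eq_mul]
      push_cast
      ring
  · simp only at hz
    rw [pt_node hT (by omega), pt_node hT (by omega)] at hz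
    obtain ⟨α, β, hα, hβ, hαβ, rfl⟩ := hz
    refine ⟨i + β, by linarith, by linarith, ?_⟩
    have : α = 1 - β := by linarith
    subst this
    refine Prod.ext ?_ ?_
    · simp only [Prod.fst_add, Prod.smul_fst, smul_eq_mul]
      ring
    · simp only [Prod.snd_add, Prod.smul_snd, smul_eq_mul]
      push_cast
      ring

theorem base_chain_meet {φ : List Cl} {a : ℕ × ℕ} (ha : a ∈ baseArcs) {z : ℝ × ℝ}
    (hz : z ∈ (mkInst φ).seg a) {T : ℕ} (hT : T < 6) {s : ℝ} (hs : 0 ≤ s) (hsk : s ≤ kk φ)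
    (hzs : z = ((cX T : ℝ), cY T * hh φ + cS T * s)) :
    s = 0 ∧ (4 + T = a.1 ∨ 4 + T = a.2) := by
  obtain ⟨α, β, y, hα, hβ, hαβ, hx, hy, hzy⟩ := seg_base ha hz
  have hH := hh_pos φ
  have hd1 : s / hh φ ≤ 1 := by
    rw [div_le_one hH]
    unfold hh
    linarith
  have hd0 : 0 ≤ s / hh φ := div_nonneg hs hH.le
  have hsd : s = hh φ * (s / hh φ) := by field_simp
  have hyv : y = cY T + cS T * (s / hh φ) := by
    have : hh φ * y = hh φ * (cY T + cS T * (s / hh φ)) := by
      rw [← hzy, hzs]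
      simp only
      rw [mul_add, ← mul_assoc, mul_comm (hh φ) (cS T : ℝ), mul_assoc, ← hsd]
      ring
    exact mul_left_cancel₀ hH.ne' this
  have hx' : z.1 = (1 - s / hh φ) * (q (4 + T)).1 + (s / hh φ) * (q (10 + T)).1 := by
    rw [q_start T hT, q_end T hT, hzs]
    simp only
    ring
  have hy' : y = (1 - s / hh φ) * (q (4 + T)).2 + (s / hh φ) * (q (10 + T)).2 := by
    rw [q_start T hT, q_end T hT, hyv]
    push_cast
    ring
  obtain ⟨v, hv1, hv2, hv3, hv4⟩ := meet (base_chain a ha T hT) hα hβ hαβ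
    (by linarith : 0 ≤ 1 - s / hh φ) hd0 (by ring) hx hy hx' hy'
  obtain ⟨l1, l2, -⟩ := base_lt a ha
  have hv : v = 4 + T := by
    simp only at hv2
    omega
  subst hv
  rw [q_start T hT, hyv] at hv4
  have hc : (cS T : ℝ) ≠ 0 := by exact_mod_cast cS_ne T hT
  have : (cS T : ℝ) * (s / hh φ) = 0 := by
    simp only at hv4
    linarith
  have h0 : s / hh φ = 0 := by
    rcases mul_eq_zero.1 this with h | h
    · exact absurd h hc
    · exact h
  exact ⟨by rw [hsd, h0, mul_zero], hv1⟩

theorem chain_chain {H k : ℝ} (hk : k < H) {T T' : ℕ} (hT : T < 6) (hT' : T' < 6) {s s' : ℝ}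
    (hs : 0 ≤ s) (hsk : s ≤ k) (hs' : 0 ≤ s') (hsk' : s' ≤ k)
    (hx : (cX T : ℝ) = cX T') (hy : cY T * H + cS T * s = cY T' * H + cS T' * s') :
    T = T' ∧ s = s' := by
  interval_cases T <;> interval_cases T' <;>
    simp only [cX, cY, cS, List.getD_cons_succ, List.getD_cons_zero] at hx hy <;>
    push_cast at hx hy <;>
    first
      | exact ⟨rfl, by linarith⟩
      | (exfalso; linarith)

theorem kk_lt_hh (φ : List Cl) : (kk φ : ℝ) < hh φ := by unfold hh; linarith

theorem node_node {φ : List Cl} {T T' : ℕ} (hT : T < 6) (hT' : T' < 6) {s s' : ℝ}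
    (hs : 0 ≤ s) (hsk : s ≤ kk φ) (hs' : 0 ≤ s') (hsk' : s' ≤ kk φ)
    (h : ((cX T : ℝ), cY T * hh φ + cS T * s) = ((cX T' : ℝ), cY T' * hh φ + cS T' * s')) :
    T = T' ∧ s = s' := by
  rw [Prod.mk.injEq] at h
  exact chain_chain (kk_lt_hh φ) hT hT' hs hsk hs' hsk' h.1 h.2

theorem pt_low {φ : List Cl} {v T : ℕ} (hv : v < 4) (hT : T < 6) {y : ℝ} :
    (mkInst φ).pt v ≠ ((cX T : ℝ), y) := by
  rw [pt_base (by omega)]
  intro h
  rw [Prod.mk.injEq] at h
  exact q_low v hv T hT (by exact_mod_cast h.1)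

theorem pt_inj {φ : List Cl} {v w : ℕ} (hv : v < 10 + 6 * kk φ) (hw : w < 10 + 6 * kk φ)
    (h : (mkInst φ).pt v = (mkInst φ).pt w) : v = w := by
  rcases vertex_cases' hv with h1 | ⟨T, hT, d, hd, rfl⟩
  · rcases vertex_cases' hw with h2 | ⟨T', hT', d', hd', rfl⟩
    · rw [pt_base (by omega), pt_base (by omega), Prod.mk.injEq] at h
      have e1 : (q v).1 = (q w).1 := by exact_mod_cast h.1
      have e2 : (q v).2 = (q w).2 := by
        have := mul_left_cancel₀ (hh_pos φ).ne' h.2
        exact_mod_cast this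
      exact q_inj v (by omega) w (by omega) (Prod.ext e1 e2)
    · rw [pt_node hT' hd'] at h
      exact absurd h (pt_low h1 hT')
  · rcases vertex_cases' hw with h2 | ⟨T', hT', d', hd', rfl⟩
    · rw [pt_node hT hd] at h
      exact absurd h.symm (pt_low h2 hT)
    · rw [pt_node hT hd, pt_node hT' hd'] at h
      obtain ⟨rfl, e⟩ := node_node hT hT' (Nat.cast_nonneg _) (by exact_mod_cast hd)
        (Nat.cast_nonneg _) (by exact_mod_cast hd') h
      have : d = d' := by exact_mod_cast e
      rw [this]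

theorem arcs_cases {φ : List Cl} {a : ℕ × ℕ} (ha : a ∈ (mkInst φ).arcs) :
    a ∈ baseArcs ∨ ∃ T < 6, ∃ i < kk φ, a = carc (kk φ) T i := by
  rcases mem_arcsL.1 (show a ∈ arcsL (kk φ) from ha) with h | ⟨i, hi, h⟩
  · exact Or.inl h
  · obtain ⟨T, hT, rfl⟩ := chain_eq h
    exact Or.inr ⟨T, hT, i, hi, rfl⟩

theorem carc_ends (k T i : ℕ) :
    (node k T i = (carc k T i).1 ∨ node k T i = (carc k T i).2) ∧
    (node k T (i + 1) = (carc k T i).1 ∨ node k T (i + 1) = (carc k T i).2) := by
  unfold carc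
  split_ifs <;> simp

theorem isPlane_mkInst (φ : List Cl) : (mkInst φ).IsPlane := by
  have hlen : (mkInst φ).pos.length = 10 + 6 * kk φ := posL_length _
  refine ⟨?_, ?_, ?_, ?_⟩
  · change (posL (kk φ)).Nodup
    unfold posL
    refine List.Nodup.map_on ?_ List.nodup_range
    intro v hv w hw h
    rw [List.mem_range] at hv hw
    refine pt_inj (φ := φ) hv hw ?_
    unfold Instance.pt
    change ((((posL (kk φ)).getD _ (0, 0)).1 : ℝ), (((posL (kk φ)).getD _ (0, 0)).2 : ℝ)) =
      ((((posL (kk φ)).getD _ (0, 0)).1 : ℝ), (((posL (kk φ)).getD _ (0, 0)).2 : ℝ))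
    rw [getD_posL hv, getD_posL hw, h]
  · intro a ha
    rw [hlen]
    rcases arcs_cases ha with h | ⟨T, hT, i, hi, rfl⟩
    · obtain ⟨h1, h2, h3⟩ := base_lt a h
      exact ⟨by omega, by omega, h3⟩
    · have e1 := node_lt (k := kk φ) hT (show i ≤ kk φ by omega)
      have e2 := node_lt (k := kk φ) hT (show i + 1 ≤ kk φ by omega)
      have e3 : node (kk φ) T (i + 1) ≠ node (kk φ) T i := by
        rw [node_succ]
        unfold node
        have : 0 ≤ T * kk φ := Nat.zero_le _
        split_ifs <;> omega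
      unfold carc
      split_ifs
      · exact ⟨e2, e1, e3⟩
      · exact ⟨e1, e2, e3.symm⟩
  · intro a ha b hb hab z hza hzb
    rcases arcs_cases ha with h | ⟨T, hT, i, hi, rfl⟩
    · rcases arcs_cases hb with h' | ⟨T', hT', i', hi', rfl⟩
      · obtain ⟨α, β, y, hα, hβ, hαβ, hx, hy, hzy⟩ := seg_base h hza
        obtain ⟨γ, δ, y', hγ, hδ, hγδ, hx', hy', hzy'⟩ := seg_base h' hzb
        have hyy : y = y' := mul_left_cancel₀ (hh_pos φ).ne' (hzy.symm.trans hzy')
        subst hyy
        obtain ⟨v, hv1, hv2, hv3, hv4⟩ := meet (base_base a h b h' hab) hα hβ hαβ hγ hδ hγδ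
          hx hy hx' hy'
        refine ⟨v, hv1, hv2, ?_⟩
        obtain ⟨l1, l2, -⟩ := base_lt a h
        rw [pt_base (by rcases hv1 with rfl | rfl <;> assumption)]
        exact Prod.ext hv3 (by rw [hzy, hv4])
      · obtain ⟨s, hs1, hs2, hs3⟩ := seg_chain hT' hi' hzb
        have hi0 : (0 : ℝ) ≤ i' := Nat.cast_nonneg _
        have hik : (i' : ℝ) + 1 ≤ kk φ := by exact_mod_cast hi'
        obtain ⟨h0, hv⟩ := base_chain_meet h hza hT' (by linarith) (by linarith) hs3
        subst h0
        have : i' = 0 := by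
          have : (i' : ℝ) = 0 := le_antisymm hs1 hi0
          exact_mod_cast this
        subst this
        refine ⟨4 + T', hv, (carc_ends (kk φ) T' 0).1, ?_⟩
        rw [← node_zero (kk φ) T', pt_node hT' (by omega), hs3]
        simp
    · obtain ⟨s, hs1, hs2, hs3⟩ := seg_chain hT hi hza
      have hi0 : (0 : ℝ) ≤ i := Nat.cast_nonneg _
      have hik : (i : ℝ) + 1 ≤ kk φ := by exact_mod_cast hi
      rcases arcs_cases hb with h' | ⟨T', hT', i', hi', rfl⟩
      · obtain ⟨h0, hv⟩ := base_chain_meet h' hzb hT (by linarith) (by linarith) hs3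
        subst h0
        have : i = 0 := by
          have : (i : ℝ) = 0 := le_antisymm hs1 hi0
          exact_mod_cast this
        subst this
        refine ⟨4 + T, (carc_ends (kk φ) T 0).1, hv, ?_⟩
        rw [← node_zero (kk φ) T, pt_node hT (by omega), hs3]
        simp
      · obtain ⟨s', hs1', hs2', hs3'⟩ := seg_chain hT' hi' hzb
        have hi0' : (0 : ℝ) ≤ i' := Nat.cast_nonneg _
        have hik' : (i' : ℝ) + 1 ≤ kk φ := by exact_mod_cast hi'
        obtain ⟨rfl, rfl⟩ := node_node hT hT' (by linarith) (by linarith) (by linarith)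
          (by linarith) (hs3.symm.trans hs3')
        have hne : i ≠ i' := by
          rintro rfl
          exact hab rfl
        rcases Nat.lt_or_gt_of_ne hne with hlt | hlt
        · have h1 : (i : ℝ) + 1 ≤ i' := by exact_mod_cast hlt
          have h2 : s = i + 1 := by linarith
          have h3 : i' = i + 1 := by
            have : (i' : ℝ) = i + 1 := by linarith
            exact_mod_cast this
          subst h3
          refine ⟨node (kk φ) T (i + 1), (carc_ends (kk φ) T i).2, (carc_ends (kk φ) T (i + 1)).1,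
            ?_⟩
          rw [pt_node hT (by omega), hs3, h2]
          push_cast
          rfl
        · have h1 : (i' : ℝ) + 1 ≤ i := by exact_mod_cast hlt
          have h2 : s = i' + 1 := by linarith
          have h3 : i = i' + 1 := by
            have : (i : ℝ) = i' + 1 := by linarith
            exact_mod_cast this
          subst h3
          refine ⟨node (kk φ) T (i' + 1), (carc_ends (kk φ) T (i' + 1)).1,
            (carc_ends (kk φ) T i').2, ?_⟩
          rw [pt_node hT (by omega), hs3, h2]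
          push_cast
          rfl
  · intro a ha v hv hva
    rw [hlen] at hv
    rcases arcs_cases ha with h | ⟨T, hT, i, hi, rfl⟩
    · rcases vertex_cases hv with h10 | ⟨T', hT', d, hd1, hd, rfl⟩
      · by_contra hcon
        push Not at hcon
        obtain ⟨α, β, y, hα, hβ, hαβ, hx, hy, hzy⟩ := seg_base h hva
        rw [pt_base h10] at hx hzy
        simp only at hx hzy
        have hyy : ((q v).2 : ℝ) = y := mul_left_cancel₀ (hh_pos φ).ne' hzy
        rw [← hyy] at hy
        have : (crs (q a.1) (q a.2) (q v) : ℝ) = 0 := by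
          unfold crs
          push_cast
          rw [hx, hy]
          have : α = 1 - β := by linarith
          subst this
          ring
        exact base_vertex a h v h10 hcon.1 hcon.2 (by exact_mod_cast this)
      · obtain ⟨h0, -⟩ := base_chain_meet h hva hT' (Nat.cast_nonneg d) (by exact_mod_cast hd)
          (pt_node hT' hd)
        have : d = 0 := by exact_mod_cast h0
        omega
    · obtain ⟨s, hs1, hs2, hs3⟩ := seg_chain hT hi hva
      have hi0 : (0 : ℝ) ≤ i := Nat.cast_nonneg _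
      have hik : (i : ℝ) + 1 ≤ kk φ := by exact_mod_cast hi
      rcases vertex_cases' hv with h4 | ⟨T', hT', d, hd, rfl⟩
      · exact absurd hs3 (pt_low h4 hT)
      · rw [pt_node hT' hd] at hs3
        obtain ⟨rfl, rfl⟩ := node_node hT' hT (Nat.cast_nonneg d) (by exact_mod_cast hd)
          (by linarith) (by linarith) hs3
        have h1 : i ≤ d := by exact_mod_cast hs1
        have h2 : d ≤ i + 1 := by exact_mod_cast hs2
        rcases Nat.lt_or_ge i d with h3 | h3
        · have : d = i + 1 := by omega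
          subst this
          exact (carc_ends (kk φ) T' i).2
        · have : d = i := by omega
          subst this
          exact (carc_ends (kk φ) T' d).1

end Pool.Agent.MP_f8c24f_lc
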