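import Pool.Agent.MP_f8c24f_lc.Geom

/-!
# The reduction: the drawing is plane
-/

open Pool.Agent.H66

namespace Pool.Agent.MP_f8c24f_lc

/-! ### Intersections of segments with integral ends -/

/-- The orientation of three points. -/
def crs (P Q R : ℤ × ℤ) : ℤ := (Q.1 - P.1) * (R.2 - P.2) - (Q.2 - P.2) * (R.1 - P.1)

/-- A criterion for two segments to meet at most in a common end. -/
def chk (f : ℕ → ℤ × ℤ) (a b : ℕ × ℕ) : Prop :=
  (0 < crs (f a.1) (f a.2) (f b.1) ∧ 0 < crs (f a.1) (f a.2) (f b.2)) ∨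
  (crs (f a.1) (f a.2) (f b.1) < 0 ∧ crs (f a.1) (f a.2) (f b.2) < 0) ∨
  (0 < crs (f b.1) (f b.2) (f a.1) ∧ 0 < crs (f b.1) (f b.2) (f a.2)) ∨
  (crs (f b.1) (f b.2) (f a.1) < 0 ∧ crs (f b.1) (f b.2) (f a.2) < 0) ∨
  (a.1 = b.1 ∧ crs (f a.1) (f a.2) (f b.2) ≠ 0) ∨
  (a.1 = b.2 ∧ crs (f a.1) (f a.2) (f b.1) ≠ 0) ∨
  (a.2 = b.1 ∧ crs (f a.1) (f a.2) (f b.2) ≠ 0) ∨
  (a.2 = b.2 ∧ crs (f a.1) (f a.2) (f b.1) ≠ 0)

instance (f : ℕ → ℤ × ℤ) (a b : ℕ × ℕ) : Decidable (chk f a b) := by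
  unfold chk; infer_instance

theorem base_base : ∀ a ∈ baseArcs, ∀ b ∈ baseArcs, a ≠ b → chk q a b := by
  decide

theorem base_chain : ∀ a ∈ baseArcs, ∀ T < 6, chk q a (4 + T, 10 + T) := by
  decide

theorem base_lt : ∀ a ∈ baseArcs, a.1 < 10 ∧ a.2 < 10 ∧ a.1 ≠ a.2 := by
  decide

theorem base_vertex : ∀ a ∈ baseArcs, ∀ v < 10, v ≠ a.1 → v ≠ a.2 →
    crs (q a.1) (q a.2) (q v) ≠ 0 := by
  decide

theorem meet {f : ℕ → ℤ × ℤ} {a b : ℕ × ℕ} (h : chk f a b) {α β γ δ x y : ℝ} (hα : 0 ≤ α)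
    (hβ : 0 ≤ β) (hαβ : α + β = 1) (hγ : 0 ≤ γ) (hδ : 0 ≤ δ) (hγδ : γ + δ = 1)
    (hx : x = α * (f a.1).1 + β * (f a.2).1) (hy : y = α * (f a.1).2 + β * (f a.2).2)
    (hx' : x = γ * (f b.1).1 + δ * (f b.2).1) (hy' : y = γ * (f b.1).2 + δ * (f b.2).2) :
    ∃ v, (v = a.1 ∨ v = a.2) ∧ (v = b.1 ∨ v = b.2) ∧ x = (f v).1 ∧ y = (f v).2 := by
  have e1 : γ * (crs (f a.1) (f a.2) (f b.1) : ℝ) + δ * (crs (f a.1) (f a.2) (f b.2) : ℝ) = 0 := by
    have : α = 1 - β := by linarith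
    subst this
    have : γ = 1 - δ := by linarith
    subst this
    unfold crs
    push_cast
    have hx2 := hx.symm.trans hx'
    have hy2 := hy.symm.trans hy'
    linear_combination ((f a.2).2 - (f a.1).2 : ℝ) * hx2 - ((f a.2).1 - (f a.1).1 : ℝ) * hy2
  have e2 : α * (crs (f b.1) (f b.2) (f a.1) : ℝ) + β * (crs (f b.1) (f b.2) (f a.2) : ℝ) = 0 := by
    have : α = 1 - β := by linarith
    subst this
    have : γ = 1 - δ := by linarith
    subst this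
    unfold crs
    push_cast
    have hx2 := hx'.symm.trans hx
    have hy2 := hy'.symm.trans hy
    linear_combination ((f b.2).2 - (f b.1).2 : ℝ) * hx2 - ((f b.2).1 - (f b.1).1 : ℝ) * hy2
  have pos : ∀ (s t : ℝ) (m n : ℤ), 0 ≤ s → 0 ≤ t → s + t = 1 → 0 < m → 0 < n →
      s * (m : ℝ) + t * (n : ℝ) ≠ 0 := by
    intro s t m n hs ht hst hm hn
    have hm' : (0 : ℝ) < m := by exact_mod_cast hm
    have hn' : (0 : ℝ) < n := by exact_mod_cast hn
    rcases hs.eq_or_lt with h0 | h0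
    · have : t = 1 := by linarith
      subst this
      rw [← h0]
      linarith
    · have h1 := mul_pos h0 hm'
      have h2 := mul_nonneg ht hn'.le
      linarith
  have neg : ∀ (s t : ℝ) (m n : ℤ), 0 ≤ s → 0 ≤ t → s + t = 1 → m < 0 → n < 0 →
      s * (m : ℝ) + t * (n : ℝ) ≠ 0 := by
    intro s t m n hs ht hst hm hn
    have := pos s t (-m) (-n) hs ht hst (by omega) (by omega)
    push_cast at this
    intro h'
    exact this (by linarith)
  rcases h with ⟨h1, h2⟩ | ⟨h1, h2⟩ | ⟨h1, h2⟩ | ⟨h1, h2⟩ | ⟨h1, h2⟩ | ⟨h1, h2⟩ | ⟨h1, h2⟩ | ⟨h1, h2⟩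
  · exact absurd e1 (pos _ _ _ _ hγ hδ hγδ h1 h2)
  · exact absurd e1 (neg _ _ _ _ hγ hδ hγδ h1 h2)
  · exact absurd e2 (pos _ _ _ _ hα hβ hαβ h1 h2)
  · exact absurd e2 (neg _ _ _ _ hα hβ hαβ h1 h2)
  · have h0 : crs (f a.1) (f a.2) (f b.1) = 0 := by rw [← h1]; unfold crs; ring
    rw [h0] at e1
    have h2' : (crs (f a.1) (f a.2) (f b.2) : ℝ) ≠ 0 := by exact_mod_cast h2
    have hδ0 : δ = 0 := by
      simp only [Int.cast_zero, mul_zero, zero_add, mul_eq_zero] at e1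
      exact e1.resolve_right h2'
    subst hδ0
    have : γ = 1 := by linarith
    subst this
    exact ⟨b.1, Or.inl h1.symm, Or.inl rfl, by linarith, by linarith⟩
  · have h0 : crs (f a.1) (f a.2) (f b.2) = 0 := by rw [← h1]; unfold crs; ring
    rw [h0] at e1
    have h2' : (crs (f a.1) (f a.2) (f b.1) : ℝ) ≠ 0 := by exact_mod_cast h2
    have hγ0 : γ = 0 := by
      simp only [Int.cast_zero, mul_zero, add_zero, mul_eq_zero] at e1
      exact e1.resolve_right h2'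
    subst hγ0
    have : δ = 1 := by linarith
    subst this
    exact ⟨b.2, Or.inl h1.symm, Or.inr rfl, by linarith, by linarith⟩
  · have h0 : crs (f a.1) (f a.2) (f b.1) = 0 := by rw [← h1]; unfold crs; ring
    rw [h0] at e1
    have h2' : (crs (f a.1) (f a.2) (f b.2) : ℝ) ≠ 0 := by exact_mod_cast h2
    have hδ0 : δ = 0 := by
      simp only [Int.cast_zero, mul_zero, zero_add, mul_eq_zero] at e1
      exact e1.resolve_right h2'
    subst hδ0
    have : γ = 1 := by linarith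
    subst this
    exact ⟨b.1, Or.inr h1.symm, Or.inl rfl, by linarith, by linarith⟩
  · have h0 : crs (f a.1) (f a.2) (f b.2) = 0 := by rw [← h1]; unfold crs; ring
    rw [h0] at e1
    have h2' : (crs (f a.1) (f a.2) (f b.1) : ℝ) ≠ 0 := by exact_mod_cast h2
    have hγ0 : γ = 0 := by
      simp only [Int.cast_zero, mul_zero, add_zero, mul_eq_zero] at e1
      exact e1.resolve_right h2'
    subst hγ0
    have : δ = 1 := by linarith
    subst this
    exact ⟨b.2, Or.inr h1.symm, Or.inr rfl, by linarith, by linarith⟩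

end Pool.Agent.MP_f8c24f_lc
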