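import Pool.Agent.MP_f8c24f_lc.Correct

/-!
# The reduction: terminals
-/

open Pool.Agent.H66

namespace Pool.Agent.MP_f8c24f_lc

/-! ### Terminals -/

theorem terms_cases {φ : List Cl} {i : ℕ} {t : ℕ × ℕ}
    (h : (termsL (kk φ) (nV φ) φ.length)[i]? = some t) :
    (i = 0 ∧ t = (0, 7)) ∨ (i = 1 ∧ t = (6, 1)) ∨ (i = 2 ∧ t = (2, 9)) ∨ (i = 3 ∧ t = (8, 3)) ∨
    (4 ≤ i ∧ i < kk φ ∧ t = (10 + i, 10 + kk φ + i)) ∨
    (4 ≤ i ∧ i < kk φ ∧ t = (10 + 2 * kk φ + i, 10 + 3 * kk φ + i)) ∨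
    (4 ≤ i ∧ i < kk φ ∧ t = (10 + 4 * kk φ + i, 10 + 5 * kk φ + i)) := by
  have hi : i < 4 + nV φ + 5 * φ.length := by
    rw [← termsL_length (kk φ)]
    exact (List.getElem?_eq_some_iff.1 h).1
  have hk : kk φ = 4 + nV φ + 5 * φ.length := rfl
  rcases index_cases hi with h4 | ⟨v, hv, rfl⟩ | ⟨j, hj, s, hs, rfl⟩
  · rw [termsL_K _ _ _ _ h4] at h
    interval_cases i
    · simp only [List.getElem?_cons_zero, Option.some.injEq] at h
      exact Or.inl ⟨rfl, h.symm⟩
    · simp only [List.getElem?_cons_succ, List.getElem?_cons_zero, Option.some.injEq] at h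
      exact Or.inr (Or.inl ⟨rfl, h.symm⟩)
    · simp only [List.getElem?_cons_succ, List.getElem?_cons_zero, Option.some.injEq] at h
      exact Or.inr (Or.inr (Or.inl ⟨rfl, h.symm⟩))
    · simp only [List.getElem?_cons_succ, List.getElem?_cons_zero, Option.some.injEq] at h
      exact Or.inr (Or.inr (Or.inr (Or.inl ⟨rfl, h.symm⟩)))
  · rw [termsL_Y _ _ _ _ hv] at h
    simp only [Option.some.injEq] at h
    iterate 6 right
    exact ⟨by omega, by omega, h.symm⟩
  · rw [termsL_C _ _ _ _ _ hj hs] at h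
    have hB : 4 + nV φ + 5 * j + s < kk φ := by omega
    have hB4 : 4 ≤ 4 + nV φ + 5 * j := by omega
    generalize hBd : 4 + nV φ + 5 * j = B at *
    interval_cases s
    · simp only [termsC, List.getElem?_cons_zero, Option.some.injEq] at h
      iterate 5 right
      left
      exact ⟨by omega, by omega, h.symm⟩
    · simp only [termsC, List.getElem?_cons_succ, List.getElem?_cons_zero, Option.some.injEq] at h
      iterate 5 right
      left
      exact ⟨by omega, by omega, h.symm⟩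
    · simp only [termsC, List.getElem?_cons_succ, List.getElem?_cons_zero, Option.some.injEq] at h
      iterate 4 right
      left
      exact ⟨by omega, by omega, h.symm⟩
    · simp only [termsC, List.getElem?_cons_succ, List.getElem?_cons_zero, Option.some.injEq] at h
      iterate 4 right
      left
      exact ⟨by omega, by omega, h.symm⟩
    · simp only [termsC, List.getElem?_cons_succ, List.getElem?_cons_zero, Option.some.injEq] at h
      iterate 4 right
      left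
      exact ⟨by omega, by omega, h.symm⟩

theorem posL_length (k : ℕ) : (posL k).length = 10 + 6 * k := by
  simp [posL]

theorem isProper_mkInst (φ : List Cl) : (mkInst φ).IsProper := by
  constructor
  · intro t ht
    obtain ⟨i, hi⟩ := List.mem_iff_getElem?.1 ht
    have hc := terms_cases hi
    change t.1 < (posL (kk φ)).length ∧ t.2 < (posL (kk φ)).length
    rw [posL_length]
    rcases hc with ⟨h1, rfl⟩ | ⟨h1, rfl⟩ | ⟨h1, rfl⟩ | ⟨h1, rfl⟩ | ⟨h1, h2, rfl⟩ | ⟨h1, h2, rfl⟩ |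
      ⟨h1, h2, rfl⟩ <;> exact ⟨by simp only; omega, by simp only; omega⟩
  · intro e he
    change e ∈ confL (nV φ) φ at he
    change e.1 < (termsL (kk φ) (nV φ) φ.length).length ∧
      e.2 < (termsL (kk φ) (nV φ) φ.length).length ∧ e.1 ≠ e.2
    rw [termsL_length]
    unfold confL at he
    obtain ⟨j, hj, he⟩ := List.mem_flatMap.1 he
    rw [List.mem_range] at hj
    have hget : φ.getD j default ∈ φ := by
      have : φ.getD j default = φ[j] := by simp [hj]
      rw [this]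
      exact List.getElem_mem _
    obtain ⟨v1, v2, v3⟩ := var_lt hget
    generalize φ.getD j default = c at *
    simp only [confC, grp, List.mem_append, List.mem_cons, List.not_mem_nil, or_false] at he
    rcases he with ((rfl | rfl | rfl | rfl) | (rfl | rfl | rfl | rfl)) |
        (rfl | rfl | rfl | rfl) <;>
      refine ⟨?_, ?_, ?_⟩ <;> (try simp only) <;> (try split_ifs) <;> omega

theorem termsDistinct_mkInst (φ : List Cl) : (mkInst φ).TermsDistinct := by
  change ((termsL (kk φ) (nV φ) φ.length).map Prod.fst ++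
    (termsL (kk φ) (nV φ) φ.length).map Prod.snd).Nodup
  have key : ∀ i (h : i < (termsL (kk φ) (nV φ) φ.length).length),
      (termsL (kk φ) (nV φ) φ.length)[i]? = some (termsL (kk φ) (nV φ) φ.length)[i] :=
    fun i h => List.getElem?_eq_getElem h
  rw [List.nodup_append]
  refine ⟨?_, ?_, ?_⟩
  · rw [List.nodup_iff_pairwise_ne, List.pairwise_iff_getElem]
    intro i j hi hj hij
    rw [List.length_map] at hi hj
    rw [List.getElem_map, List.getElem_map]
    have c1 := terms_cases (key i hi)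
    have c2 := terms_cases (key j hj)
    generalize (termsL (kk φ) (nV φ) φ.length)[i] = t at *
    generalize (termsL (kk φ) (nV φ) φ.length)[j] = s at *
    rcases c1 with ⟨h1, rfl⟩ | ⟨h1, rfl⟩ | ⟨h1, rfl⟩ | ⟨h1, rfl⟩ | ⟨h1, h2, rfl⟩ | ⟨h1, h2, rfl⟩ |
      ⟨h1, h2, rfl⟩ <;>
    rcases c2 with ⟨h3, rfl⟩ | ⟨h3, rfl⟩ | ⟨h3, rfl⟩ | ⟨h3, rfl⟩ | ⟨h3, h4, rfl⟩ | ⟨h3, h4, rfl⟩ |
      ⟨h3, h4, rfl⟩ <;> simp only <;> omega
  · rw [List.nodup_iff_pairwise_ne, List.pairwise_iff_getElem]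
    intro i j hi hj hij
    rw [List.length_map] at hi hj
    rw [List.getElem_map, List.getElem_map]
    have c1 := terms_cases (key i hi)
    have c2 := terms_cases (key j hj)
    generalize (termsL (kk φ) (nV φ) φ.length)[i] = t at *
    generalize (termsL (kk φ) (nV φ) φ.length)[j] = s at *
    rcases c1 with ⟨h1, rfl⟩ | ⟨h1, rfl⟩ | ⟨h1, rfl⟩ | ⟨h1, rfl⟩ | ⟨h1, h2, rfl⟩ | ⟨h1, h2, rfl⟩ |
      ⟨h1, h2, rfl⟩ <;>
    rcases c2 with ⟨h3, rfl⟩ | ⟨h3, rfl⟩ | ⟨h3, rfl⟩ | ⟨h3, rfl⟩ | ⟨h3, h4, rfl⟩ | ⟨h3, h4, rfl⟩ |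
      ⟨h3, h4, rfl⟩ <;> simp only <;> omega
  · intro a ha b hb
    obtain ⟨t, ht, rfl⟩ := List.mem_map.1 ha
    obtain ⟨s, hs, rfl⟩ := List.mem_map.1 hb
    obtain ⟨i, hi⟩ := List.mem_iff_getElem?.1 ht
    obtain ⟨j, hj⟩ := List.mem_iff_getElem?.1 hs
    have c1 := terms_cases hi
    have c2 := terms_cases hj
    clear hi hj ht hs ha hb key
    rcases c1 with ⟨h1, rfl⟩ | ⟨h1, rfl⟩ | ⟨h1, rfl⟩ | ⟨h1, rfl⟩ | ⟨h1, h2, rfl⟩ | ⟨h1, h2, rfl⟩ |
      ⟨h1, h2, rfl⟩ <;>
    rcases c2 with ⟨h3, rfl⟩ | ⟨h3, rfl⟩ | ⟨h3, rfl⟩ | ⟨h3, rfl⟩ | ⟨h3, h4, rfl⟩ | ⟨h3, h4, rfl⟩ |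
      ⟨h3, h4, rfl⟩ <;> simp only <;> omega

end Pool.Agent.MP_f8c24f_lc
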